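import Pool.Agent.P.MP_95bcfc_an.EM.Leak

set_option autoImplicit false
set_option linter.unusedSectionVars false
set_option linter.deprecated false
set_option linter.style.haveILetI false

open scoped InnerProductSpace ComplexConjugate
open MeasureTheory

namespace Pool.Agent.P.MP_95bcfc_an.EM

section TM

variable {W ι Q : Type} [Group W] [Fintype ι] [DecidableEq ι] [Group Q] [Fintype Q] [DecidableEq Q]
  (t : ι → W) (θ : FreeGroup ι →* Q)

/-- the twisted sum of the generators of one class -/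
noncomputable def TM (c : Finset ι) (κ : ℝ) (b : Bool) : Matrix Q Q (MonoidAlgebra ℂ W) :=
  Matrix.of fun a a' => ∑ i ∈ c,
    if a' = a * (θ (lw (i, b)))⁻¹ then MonoidAlgebra.single (st t (i, b))⁻¹ (κ : ℂ) else 0

theorem TM_apply (c : Finset ι) (κ : ℝ) (b : Bool) (R : Rep W) (v : HD Q R.H) (a : Q) :
    evM (und R.π) (TM t θ c κ b) v a = (κ : ℂ) • ∑ i ∈ c,
      (R.π (st t (i, b))⁻¹ : R.H →L[ℂ] R.H) (v (a * (θ (lw (i, b)))⁻¹)) := by
  rw [evM_apply]
  simp only [TM, Matrix.of_apply, map_sum, ContinuousLinearMap.sum_apply]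
  rw [Finset.sum_comm, Finset.smul_sum]
  refine Finset.sum_congr rfl fun i _ => ?_
  rw [Finset.sum_eq_single (a * (θ (lw (i, b)))⁻¹)]
  · rw [if_pos rfl, ev_single]; rfl
  · intro j _ hj
    simp [hj]
  · simp

theorem TM_adj (c : Finset ι) (κ : ℝ) (b : Bool) (R : Rep W) (u v : HD Q R.H) :
    ⟪evM (und R.π) (TM t θ c κ (!b)) u, v⟫_ℂ = ⟪u, evM (und R.π) (TM t θ c κ b) v⟫_ℂ := by
  simp only [PiLp.inner_apply, TM_apply, inner_smul_left, inner_smul_right, sum_inner, inner_sum,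
    Complex.conj_ofReal, ← Finset.mul_sum]
  congr 1
  rw [Finset.sum_comm, Finset.sum_comm (t := c)]
  refine Finset.sum_congr rfl fun i _ => ?_
  rw [← Equiv.sum_comp (Equiv.mulRight (θ (lw (i, b))))
    fun a => ⟪u a, (R.π (st t (i, b))⁻¹ : R.H →L[ℂ] R.H) (v (a * (θ (lw (i, b)))⁻¹))⟫_ℂ]
  refine Finset.sum_congr rfl fun a _ => ?_
  rw [uni_inner, st_not, lw_not]
  simp

end TM

attribute [local instance] act act_meas

theorem nuc_of_wide {W G Λ : Type} [Group W] [Group G] [Group Λ] [Countable G]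
    (hG : WideForests G) (q : W →* G) (hq : Function.Surjective q) (hN : Nuc W Λ) :
    Nuc F2 Λ := by
  classical
  refine transfer2 hN fun L _ _ _ σ ρ hc δ hδ => ?_
  obtain ⟨N, s, μ, _, hμ, hF, hd⟩ := hG (392 / δ ^ 2)
  set d := ∑ i, μ.real {ω | ω (1, i) = true} with hdd
  have hd0 : 0 < d := by
    have h1 : 0 ≤ d := Finset.sum_nonneg fun _ _ => measureReal_nonneg
    have h2 : 0 ≤ 392 / δ ^ 2 * N := by positivity
    rcases h1.eq_or_lt with h | h
    · rw [← h] at hd; linarith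
    · exact h
  choose t ht using fun i => hq (s i)
  have hst : ∀ x, q (st t x) = st s x := fun ⟨i, b⟩ => by cases b <;> simp [ht]
  -- singular vectors
  obtain ⟨l, h0, h1, hdl, hh0, hh1, hA0, hA1⟩ := perron (JJ μ) (∑ i, Aop s (i, false))
    (∑ i, Aop s (i, true)) (fun f f' => by
      simp only [LinearMap.sum_apply, map_sum, inner_sum, sum_inner]
      exact Finset.sum_congr rfl fun i _ => Aop_adj s hμ i false f f') (C := N) (fun f => by
      rw [LinearMap.sum_apply, map_sum]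
      refine (norm_sum_le _ _).trans ((Finset.sum_le_card_nsmul _ _ _
        fun i _ => norm_Aop s hμ _ f).trans (by simp))) (norm_JJ_one μ) hd0 (deg_le s hF)
      (η := δ / 2) (by positivity)
  have hl0 : 0 < l := hd0.trans_le hdl
  let hh : Bool → BM (G × Fin N → Bool) := fun b => if b then h1 else h0
  have hhn : ∀ b, ‖JJ μ (hh b)‖ = 1 := fun b => by cases b <;> assumption
  have hA : ∀ b, ‖∑ i, JJ μ (Aop s (i, b) (hh b)) - (l : ℂ) • JJ μ (hh (!b))‖ ≤ δ / 2 * l :=
    fun b => by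
      rw [LinearMap.sum_apply, map_sum] at hA0 hA1
      cases b <;> assumption
  -- classes
  set r := Real.sqrt (2 * N) with hr
  have hr0 : 0 ≤ r := Real.sqrt_nonneg _
  have hr2 : r ^ 2 = 2 * N := Real.sq_sqrt (by positivity)
  obtain ⟨c, hc1, hc2⟩ := classes (fun b i => JJ μ (Aop s (i, b) (hh b)))
    (fun b i => (norm_Aop s hμ _ _).trans (hhn b).le) hr0 (by simp [hr2])
  let β : FreeGroup (Fin N) →* F2 := FreeGroup.lift fun i =>
    if h : ∃ k, i ∈ c k then lab h.choose else 1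
  have hβ : ∀ k, ∀ i ∈ c k, β (FreeGroup.of i) = lab k := fun k i hi => by
    have h : ∃ k, i ∈ c k := ⟨k, hi⟩
    simp only [β, FreeGroup.lift_apply_of, dif_pos h]
    rw [hc1 _ _ i h.choose_spec hi]
  -- tails
  obtain ⟨M0, hM0⟩ := h0.2.2
  obtain ⟨M1, hM1⟩ := h1.2.2
  set M := max M0 M1 with hMd
  have hM : ∀ b ω, ‖(hh b).1 ω‖ ≤ M := fun b ω => by
    cases b
    · exact (hM0 ω).trans (le_max_left _ _)
    · exact (hM1 ω).trans (le_max_right _ _)
  set ε : ℝ := 1 / (N * M ^ 2 + 1) with hε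
  have hε0 : 0 < ε := by positivity
  have hε1 : (N : ℝ) * (M ^ 2 * ε) ≤ 1 := by
    rw [← mul_assoc, hε, mul_one_div, div_le_one (by positivity)]
    linarith
  obtain ⟨n, hn⟩ := (Filter.eventually_all.2 fun x : Fin N × Bool => Filter.eventually_all.2
    fun x' : Fin N × Bool => exists_tail (s := s) μ (st s x)⁻¹ (st s x')⁻¹ hε0).exists
  obtain ⟨Q, _, _, _, θ, hθ⟩ := exists_quot (ι := Fin N) (n + 2)
  haveI := act_inv (μ := μ) Q hμ
  obtain ⟨R, e, he, hU, -⟩ := (sys s q θ β).exists_rep μ σ ρ hc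
  let π := R.π.comp (MonoidHom.inl W Λ)
  have hπ : ∀ γ f a ξ, (π γ : R.H →L[ℂ] R.H) (e (f, (1, a), ξ)) =
      e (shf (q γ) f, (q γ, a), ξ) := fun γ f a ξ => by
    have := hU γ 1 f (1, a) ξ
    rw [map_one, OneMemClass.coe_one, ContinuousLinearMap.one_apply] at this
    refine this.trans (congrArg e (Prod.ext (one_mul _) (Prod.ext ?_ rfl)))
    exact Prod.ext (mul_one _) (one_mul _)
  have hN : (0 : ℝ) < Fintype.card Q := by exact_mod_cast Fintype.card_pos
  set a : ℝ := (Real.sqrt (Fintype.card Q))⁻¹ with ha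
  have ha0 : 0 ≤ a := by positivity
  have haa : (Fintype.card Q : ℝ) * (a * a) = 1 := by
    rw [ha, ← mul_inv, Real.mul_self_sqrt hN.le, mul_inv_cancel₀ hN.ne']
  have haa' : (Fintype.card Q : ℂ) * ((a : ℂ) * a) = 1 := by exact_mod_cast haa
  have hV : ∀ b, ∃ V : L →L[ℂ] HD Q R.H,
      (∀ ξ i, V ξ i = (a : ℂ) • e (hh b, (1, i), ξ)) ∧ ∀ ξ, ‖V ξ‖ = ‖ξ‖ := fun b => by
    obtain ⟨V, hV, hVn⟩ := exists_clm (H := HD Q R.H)
      (fun ξ => WithLp.toLp 2 fun i => (a : ℂ) • e (hh b, (1, i), ξ)) fun ξ η => by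
        simp only [PiLp.inner_apply, inner_smul_left, inner_smul_right, e_same he,
          inner_self_eq_norm_sq_to_K, hhn, Finset.sum_const, Finset.card_univ, nsmul_eq_mul,
          Complex.conj_ofReal]
        push_cast
        linear_combination ⟪ξ, η⟫_ℂ * haa'
    exact ⟨V, fun ξ i => by rw [hV], hVn⟩
  choose V hVi hVn using hV
  have hrl : 7 * r / l ≤ δ / 2 := by
    rw [div_le_iff₀ hl0]
    refine le_trans ((sq_le_sq₀ (by positivity) (by positivity)).1 ?_)
      (mul_le_mul_of_nonneg_left hdl (by positivity))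
    rw [div_mul_eq_mul_div, div_lt_iff₀ (by positivity)] at hd
    nlinarith
  have key : ∀ k b (u : F2), (∀ i ∈ c k, β (lw (i, b)) = u) → ∀ ξ,
      ‖evM (und π) (TM t θ (c k) (4 / l) b) (V b ξ) - V (!b) ((σ u⁻¹ : L →L[ℂ] L) ξ)‖ ≤
        δ * ‖ξ‖ := by
    intro k b u hu ξ
    have h2 : ∀ i, ‖(evM (und π) (TM t θ (c k) (4 / l) b) (V b ξ) -
        V (!b) ((σ u⁻¹ : L →L[ℂ] L) ξ)) i‖ ≤ a * (δ * ‖ξ‖) := by
      intro i
      have h3 := leak hμ he (c k) b hu (hhn b) (hM b) hε0.le hn hθ hr0 (by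
        rw [hr2, Fintype.card_fin]
        nlinarith [(Nat.cast_nonneg N : (0 : ℝ) ≤ N)]) i ξ
      have h4 := TM_apply t θ (c k) (4 / l) b ⟨R.H, π⟩ (V b ξ) i
      set η := (σ u⁻¹ : L →L[ℂ] L) ξ with hη
      have hηn : ‖η‖ = ‖ξ‖ := uni_norm _ _
      set y := ∑ j ∈ c k, e (shf (st s (j, b))⁻¹ (hh b), vx s θ i (j, b), ξ) with hy
      set g := ∑ j ∈ c k, Aop s (j, b) (hh b) with hg
      have h5 : evM (und π) (TM t θ (c k) (4 / l) b) (V b ξ) i =
          (a : ℂ) • ((4 / l : ℝ) : ℂ) • y := by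
        refine h4.trans ?_
        rw [smul_comm, hy, Finset.smul_sum (r := (a : ℂ))]
        refine congrArg _ (Finset.sum_congr rfl fun j _ => ?_)
        change (π _ : R.H →L[ℂ] R.H) _ = _
        rw [hVi, map_smul, hπ, map_inv, hst]
        rfl
      have h6 : ‖JJ μ (((4 / l : ℝ) : ℂ) • g - hh (!b))‖ ≤ 3 * r / l + δ / 2 := by
        have hlc : (l : ℂ) ≠ 0 := by exact_mod_cast hl0.ne'
        have e1 : JJ μ (((4 / l : ℝ) : ℂ) • g - hh (!b)) = ((l⁻¹ : ℝ) : ℂ) •
            (((4 : ℂ) • ∑ j ∈ c k, JJ μ (Aop s (j, b) (hh b)) - ∑ j, JJ μ (Aop s (j, b) (hh b))) +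
            (∑ j, JJ μ (Aop s (j, b) (hh b)) - (l : ℂ) • JJ μ (hh (!b)))) := by
          rw [sub_add_sub_cancel, map_sub, map_smul, hg, map_sum, smul_sub, smul_smul, smul_smul]
          push_cast
          rw [inv_mul_cancel₀ hlc, one_smul, div_eq_inv_mul]
        rw [e1, norm_smul, Complex.norm_real, norm_inv, Real.norm_of_nonneg hl0.le,
          inv_mul_le_iff₀ hl0]
        refine (norm_add_le _ _).trans ((add_le_add (hc2 k b) (hA b)).trans (le_of_eq ?_))
        field_simp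
      have h7 : ((4 / l : ℝ) : ℂ) • y - e (hh (!b), (1, i), η) =
          ((4 / l : ℝ) : ℂ) • (y - e (g, (1, i), η)) +
            e (((4 / l : ℝ) : ℂ) • g - hh (!b), (1, i), η) := by
        rw [← eL_apply he _ _ (_ - _), map_sub, map_smul, eL_apply, eL_apply, smul_sub,
          sub_add_sub_cancel]
      rw [PiLp.sub_apply, h5, hVi, ← smul_sub, norm_smul, Complex.norm_real,
        Real.norm_of_nonneg ha0, h7]
      refine mul_le_mul_of_nonneg_left ((norm_add_le _ _).trans ?_) ha0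
      rw [norm_smul, Complex.norm_real, Real.norm_of_nonneg (by positivity), norm_e he, hηn]
      have a1 := mul_le_mul_of_nonneg_left h3 (show 0 ≤ 4 / l by positivity)
      have a2 := mul_le_mul_of_nonneg_right h6 (norm_nonneg ξ)
      have a3 := mul_le_mul_of_nonneg_right hrl (norm_nonneg ξ)
      have a4 : 4 / l * (r * ‖ξ‖) + 3 * r / l * ‖ξ‖ = 7 * r / l * ‖ξ‖ := by ring
      linarith
    refine (sq_le_sq₀ (norm_nonneg _) (by positivity)).1 ?_
    rw [PiLp.norm_sq_eq_of_L2]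
    refine (Finset.sum_le_card_nsmul _ _ _ fun i _ =>
      pow_le_pow_left₀ (norm_nonneg _) (h2 i) 2).trans (le_of_eq ?_)
    rw [nsmul_eq_mul, Finset.card_univ]
    linear_combination (δ * ‖ξ‖) ^ 2 * haa
  refine ⟨Q, inferInstance, inferInstance, fun k => TM t θ (c k) (4 / l) false,
    fun k => TM t θ (c k) (4 / l) true, ⟨R.H, π⟩, R.π.comp (MonoidHom.inr W Λ), V false, V true,
    fun g l => ?_, hVn false, fun l ξ => ?_, fun k R u v => TM_adj t θ _ _ false R u v,
    fun k ξ => ?_, fun k ξ => ?_⟩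
  · change _ * _ = _ * _
    simp only [π, MonoidHom.comp_apply, ← Submonoid.coe_mul, ← MonoidHom.map_mul]
    simp
  · ext i
    rw [diag_apply, hVi, hVi, map_smul]
    congr 1
    refine (hU 1 l (hh false) (1, i) ξ).trans (congrArg e (Prod.ext ?_ (by simp)))
    ext ω
    simp [Sys.χ_one]
  · have := key k false (lab k)⁻¹ (fun i hi => by rw [lw_false, map_inv, hβ k i hi]) ξ
    rwa [inv_inv] at this
  · exact key k true (lab k) (fun i hi => by rw [lw_true, hβ k i hi]) ξ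

end Pool.Agent.P.MP_95bcfc_an.EM
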