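import Pool.Agent.P.MP_95bcfc_an.EM.Rank
import Pool.Agent.P.MP_95bcfc_an.EM.Wide

set_option autoImplicit false
set_option linter.unusedSectionVars false
set_option linter.deprecated false
set_option linter.style.haveILetI false

open MeasureTheory Filter Topology

namespace Pool.Agent.P.MP_95bcfc_an.EM

variable {G ι : Type} [Group G] [Countable G] [Fintype ι] [DecidableEq ι] {s : ι → G}

theorem edges_mul (h g : G) (L : List (ι × Bool)) :
    edges s (h * g) L = (edges s g L).map fun e => (h * e.1, e.2) := by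
  induction L generalizing g with
  | nil => rfl
  | cons x L ih => rw [edges, edges, List.map_cons, mul_assoc, ih, edge_mul]

/-- the average over the translates of a periodic configuration -/
theorem exists_level (K : Subgroup G) [K.Normal] [K.FiniteIndex] (R : ℕ)
    (F : Finset ((G ⧸ K) × ι)) (hF : ∀ (g : G) (w : FreeGroup ι), w.norm ≤ R →
      (∀ e ∈ edges s g w.toWord, ((e.1 : G ⧸ K), e.2) ∈ F) → FreeGroup.lift s w = 1 → w = 1) :
    ∃ ν : ProbabilityMeasure (G × ι → Bool),
      (∀ g : G, (ν : Measure (G × ι → Bool)).map (shiftCfg g) = ν) ∧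
      (∀ (g : G) (w : FreeGroup ι), w.norm ≤ R → FreeGroup.lift s w = 1 → w ≠ 1 →
        (ν : Measure (G × ι → Bool)) {ω | OpenPath s ω g w.toWord} = 0) ∧
      ∑ i, (ν : Measure (G × ι → Bool)).real {ω | ω (1, i) = true} = F.card / K.index := by
  classical
  letI := K.fintypeQuotientOfFiniteIndex
  let ψ : G ⧸ K → G × ι → Bool := fun v e => decide ((v * (e.1 : G ⧸ K), e.2) ∈ F)
  let ν : Measure (G × ι → Bool) :=
    (Fintype.card (G ⧸ K) : ENNReal)⁻¹ • ∑ v, Measure.dirac (ψ v)
  have happ : ∀ A, MeasurableSet A → ν A =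
      (Fintype.card (G ⧸ K) : ENNReal)⁻¹ * ∑ v, A.indicator 1 (ψ v) := fun A hA => by
    simp [ν, Measure.dirac_apply' _ hA]
  have hc0 : (Fintype.card (G ⧸ K) : ENNReal) ≠ 0 := by exact_mod_cast Fintype.card_ne_zero
  have hp : IsProbabilityMeasure ν := ⟨by
    rw [happ _ MeasurableSet.univ]
    simp [ENNReal.inv_mul_cancel hc0]⟩
  refine ⟨⟨ν, hp⟩, fun g => ?_, fun g w h1 h2 h3 => ?_, ?_⟩
  · refine Measure.ext fun A hA => ?_
    change ν.map _ A = ν A
    rw [Measure.map_apply (meas_shift g) hA, happ _ (meas_shift g hA), happ _ hA,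
      ← Equiv.sum_comp (Equiv.mulRight ((g : G ⧸ K)⁻¹)) fun v => A.indicator 1 (ψ v)]
    refine congrArg _ (Finset.sum_congr rfl fun v _ => ?_)
    have e : ψ (Equiv.mulRight ((g : G ⧸ K)⁻¹) v) = shiftCfg g (ψ v) := by
      funext e; simp [ψ, shiftCfg, mul_assoc]
    rw [e]
    rfl
  · change ν _ = 0
    rw [happ _ (meas_openPath _ _), Finset.sum_eq_zero, mul_zero]
    intro v _
    refine Set.indicator_of_notMem (fun h4 => h3 (hF (v.out * g) w h1 (fun e he => ?_) h2)) _
    rw [edges_mul] at he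
    obtain ⟨e', he', rfl⟩ := List.mem_map.1 he
    simpa [ψ] using openPath_iff.1 h4 e' he'
  · have h1 : ∀ i, ν.real {ω | ω (1, i) = true} = (Fintype.card (G ⧸ K) : ℝ)⁻¹ *
        ∑ v, if (v, i) ∈ F then 1 else 0 := fun i => by
      rw [Measure.real, happ _ (meas_edge _), ENNReal.toReal_mul, ENNReal.toReal_inv,
        ENNReal.toReal_sum fun v _ => by
          by_cases h : ψ v ∈ {ω : G × ι → Bool | ω (1, i) = true} <;> simp [h]]
      refine congrArg₂ _ (by simp) (Finset.sum_congr rfl fun v _ => ?_)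
      by_cases h : (v, i) ∈ F <;> simp [ψ, h]
    change ∑ i, ν.real _ = _
    simp only [h1]
    rw [← Finset.mul_sum, Finset.sum_comm, ← Fintype.sum_prod_type', Subgroup.index_eq_card,
      Nat.card_eq_fintype_card, div_eq_inv_mul]
    simp

theorem isClopen_edge (e : G × ι) : IsClopen {ω : G × ι → Bool | ω e = true} :=
  (isClopen_discrete {true}).preimage (continuous_apply e)

theorem isClopen_openPath (g : G) (L : List (ι × Bool)) : IsClopen {ω | OpenPath s ω g L} := by
  induction L generalizing g with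
  | nil => simpa using isClopen_univ
  | cons x L ih =>
    simp only [openPath_cons]
    exact (isClopen_edge _).inter (ih _)

theorem exists_limit {d : ℝ} (ν : ℕ → ProbabilityMeasure (G × ι → Bool))
    (h1 : ∀ R (g : G), (ν R : Measure (G × ι → Bool)).map (shiftCfg g) = ν R)
    (h2 : ∀ R (g : G) (w : FreeGroup ι), w.norm ≤ R → FreeGroup.lift s w = 1 → w ≠ 1 →
      (ν R : Measure (G × ι → Bool)) {ω | OpenPath s ω g w.toWord} = 0)
    (h3 : ∀ R, d ≤ ∑ i, (ν R : Measure (G × ι → Bool)).real {ω | ω (1, i) = true}) :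
    ∃ μ : Measure (G × ι → Bool), IsProbabilityMeasure μ ∧ (∀ g : G, μ.map (shiftCfg g) = μ) ∧
      (∀ᵐ ω ∂μ, IsForest s ω) ∧ d ≤ ∑ i, μ.real {ω | ω (1, i) = true} := by
  obtain ⟨μ, -, hμ⟩ := isCompact_univ.ultrafilter_le_nhds ((hyperfilter ℕ).map ν) (by simp)
  have ht : Tendsto ν (hyperfilter ℕ) (𝓝 μ) := hμ
  have hcl : ∀ E, IsClopen E → Tendsto (fun R => (ν R : Measure (G × ι → Bool)) E) (hyperfilter ℕ)
      (𝓝 ((μ : Measure (G × ι → Bool)) E)) := fun E hE =>
    ProbabilityMeasure.tendsto_measure_of_null_frontier_of_tendsto' ht (by simp [hE])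
  refine ⟨μ, inferInstance, fun g => ?_, ?_, ?_⟩
  · have hc : Continuous (shiftCfg g : (G × ι → Bool) → (G × ι → Bool)) :=
      continuous_pi fun _ => continuous_apply _
    have h4 := ProbabilityMeasure.tendsto_map_of_tendsto_of_continuous ν μ ht hc
    have h5 : (fun R => (ν R).map hc.measurable.aemeasurable) = ν :=
      funext fun R => Subtype.ext (h1 R g)
    rw [h5] at h4
    have h6 := tendsto_nhds_unique h4 ht
    exact congrArg Subtype.val h6
  · refine ae_all_iff.2 fun g => ae_all_iff.2 fun w => ?_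
    by_cases h4 : FreeGroup.lift s w = 1 → w = 1
    · exact Eventually.of_forall fun _ _ => h4
    · push Not at h4
      have h5 : (μ : Measure (G × ι → Bool)) {ω | OpenPath s ω g w.toWord} = 0 :=
        tendsto_nhds_unique (hcl _ (isClopen_openPath g _)) (tendsto_const_nhds.congr'
          (((eventually_ge_atTop w.norm).filter_mono (Nat.hyperfilter_le_atTop)).mono
            fun R hR => (h2 R g w hR h4.1 h4.2).symm))
      exact (measure_eq_zero_iff_ae_notMem.1 h5).mono fun ω h6 h7 => absurd h7 h6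
  · exact ge_of_tendsto' (tendsto_finset_sum _ fun i _ =>
      (ENNReal.tendsto_toReal (measure_ne_top _ _)).comp (hcl _ (isClopen_edge _))) h3

theorem wide_of_rank (hG : PosRankGradient G) : WideForests G := by
  classical
  obtain ⟨hfg, H, c, hc, hanti, hH, hbot, hrank⟩ := hG
  have havoid : ∀ B : Set G, B.Finite → ∀ᶠ j in atTop, ∀ g ∈ B, g ∈ H j → g = 1 := by
    intro B hB
    refine (eventually_all_finite hB).2 fun g _ => ?_
    by_cases hg : g = 1
    · exact Eventually.of_forall fun _ _ => hg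
    · obtain ⟨j, hj⟩ : ∃ j, g ∉ H j := by
        by_contra h
        push Not at h
        exact hg (Subgroup.mem_bot.1 (hbot ▸ Subgroup.mem_iInf.2 h))
      exact (eventually_ge_atTop j).mono fun k hk h => absurd (hanti hk h) hj
  have hidx : ∀ M : ℕ, ∃ i, M ≤ (H i).index := by
    intro M
    cases finite_or_infinite G with
    | inl hfin =>
      obtain ⟨j, hj⟩ := (havoid Set.univ Set.finite_univ).exists
      have h1 := hrank j ∅ (by
        rw [Finset.coe_empty, Subgroup.closure_empty, eq_comm, Subgroup.eq_bot_iff_forall]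
        exact fun g hg => hj g trivial hg)
      have h2 : (0 : ℝ) < (H j).index := by
        exact_mod_cast Nat.pos_of_ne_zero (hH j).2.index_ne_zero
      simp only [Finset.card_empty, Nat.cast_zero] at h1
      nlinarith
    | inr hinf =>
      obtain ⟨A, hA⟩ := Infinite.exists_subset_card_eq G M
      obtain ⟨j, hj⟩ := (havoid _ ((A ×ˢ A).finite_toSet.image fun p => p.1⁻¹ * p.2)).exists
      haveI := (hH j).2
      letI := (H j).fintypeQuotientOfFiniteIndex
      refine ⟨j, ?_⟩
      rw [← hA, Subgroup.index_eq_card, Nat.card_eq_fintype_card, ← Finset.card_univ]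
      refine Finset.card_le_card_of_injOn (fun g => (g : G ⧸ H j)) (fun _ _ => Finset.mem_univ _)
        fun a ha b hb hab => inv_mul_eq_one.1 (hj _ ⟨(a, b), ?_, rfl⟩ (QuotientGroup.eq.1 hab))
      exact Finset.mem_coe.2 (Finset.mem_product.2 ⟨ha, hb⟩)
  intro C
  obtain ⟨S, hS⟩ := hfg.1
  obtain ⟨M, hM⟩ := exists_nat_gt (|C| * S.card / c ^ 2)
  obtain ⟨i, hi⟩ := hidx M
  haveI := (hH i).2
  obtain ⟨T, hT1, hT2⟩ := (H i).exists_finset_card_le_mul hS
  let s : Fin T.card → G := fun k => (T.equivFin.symm k : H i)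
  have hs : Subgroup.closure (Set.range s) = H i := by
    have : Set.range s = (H i).subtype '' (T : Set (H i)) := by
      ext g
      refine ⟨?_, ?_⟩
      · rintro ⟨k, rfl⟩
        exact ⟨_, (T.equivFin.symm k).2, rfl⟩
      · rintro ⟨x, hx, rfl⟩
        exact ⟨T.equivFin ⟨x, hx⟩, by simp [s]⟩
    rw [this, ← MonoidHom.map_closure, hT2, ← MonoidHom.range_eq_map, Subgroup.range_subtype]
  have hlev : ∀ R : ℕ, ∃ ν : ProbabilityMeasure (G × Fin T.card → Bool),
      (∀ g : G, (ν : Measure (G × Fin T.card → Bool)).map (shiftCfg g) = ν) ∧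
      (∀ (g : G) (w : FreeGroup (Fin T.card)), w.norm ≤ R → FreeGroup.lift s w = 1 → w ≠ 1 →
        (ν : Measure (G × Fin T.card → Bool)) {ω | OpenPath s ω g w.toWord} = 0) ∧
      (H i).index * c ≤
        ∑ k, (ν : Measure (G × Fin T.card → Bool)).real {ω | ω (1, k) = true} := by
    intro R
    have hB : {w : FreeGroup (Fin T.card) | w.norm ≤ 2 * R}.Finite :=
      ((List.finite_length_le (Fin T.card × Bool) (2 * R)).image FreeGroup.mk).subset
        fun w hw => ⟨w.toWord, hw, FreeGroup.mk_toWord⟩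
    obtain ⟨j, hj, hij⟩ := ((havoid _ (hB.image (FreeGroup.lift s))).and
      (eventually_ge_atTop i)).exists
    haveI := (hH j).1
    haveI := (hH j).2
    obtain ⟨F, hF1, hF2⟩ := exists_periodic (s := s) (H j) R fun w hw h => hj _ ⟨w, hw, rfl⟩ h
    obtain ⟨ν, h1, h2, h3⟩ := exists_level (H j) R F hF2
    refine ⟨ν, h1, h2, ?_⟩
    have h4 := card_periodic (H j) (H i) (hanti hij) hs (hrank j) F hF1
    have h5 : (0 : ℝ) < (H j).index := by
      exact_mod_cast Nat.pos_of_ne_zero (hH j).2.index_ne_zero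
    rw [h3, le_div_iff₀ h5, mul_assoc]
    exact h4
  choose ν h1 h2 h3 using hlev
  obtain ⟨μ, hμ, h4, h5, h6⟩ := exists_limit ν h1 h2 h3
  refine ⟨T.card, s, μ, hμ, h4, h5, ?_⟩
  have h7 : (0 : ℝ) < (H i).index := by
    exact_mod_cast Nat.pos_of_ne_zero (hH i).2.index_ne_zero
  have h8 : (T.card : ℝ) ≤ (H i).index * S.card := by exact_mod_cast hT1
  have h9 : (M : ℝ) ≤ (H i).index := by exact_mod_cast hi
  rw [div_lt_iff₀ (by positivity)] at hM
  refine lt_of_lt_of_le ?_ (pow_le_pow_left₀ (by positivity) h6 2)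
  have a1 : C * T.card ≤ |C| * ((H i).index * S.card) :=
    mul_le_mul (le_abs_self C) h8 (Nat.cast_nonneg _) (abs_nonneg C)
  have a2 := mul_lt_mul_of_pos_left hM h7
  have a3 := mul_le_mul_of_nonneg_left (mul_le_mul_of_nonneg_right h9 (sq_nonneg c)) h7.le
  nlinarith

theorem main_wide {Γ : Type} [Group Γ] (hG : WideForests G) (S : Subgroup Γ) (π : S →* G)
    (hπ : Function.Surjective π) (hK : Kirchberg Γ) : Kirchberg (FreeGroup (Fin 2)) :=
  nuc_of_wide hG π hπ ((nuc_of_wide hG π hπ (Nuc.subgroup hK S)).symm.subgroup S)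

end Pool.Agent.P.MP_95bcfc_an.EM
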