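import Pool.Agent.P.MP_95bcfc_an.EM.Stmt

set_option autoImplicit false
set_option linter.unusedSectionVars false
set_option linter.deprecated false
set_option linter.style.haveILetI false

open MeasureTheory

namespace Pool.Agent.P.MP_95bcfc_an.EM

variable {G ι : Type} [Group G] [DecidableEq ι] (s : ι → G)

/-- a letter as an element of the free group -/
def lw (x : ι × Bool) : FreeGroup ι := FreeGroup.mk [x]

/-- the group element of a letter -/
def st (x : ι × Bool) : G := FreeGroup.lift s (lw x)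

/-- the edge used by a step -/
def edge (g : G) (x : ι × Bool) : G × ι := if x.2 then (g, x.1) else (g * (s x.1)⁻¹, x.1)

theorem lw_true (i : ι) : lw (i, true) = FreeGroup.of i := rfl

theorem lw_false (i : ι) : lw (i, false) = (FreeGroup.of i)⁻¹ := by
  rw [lw, FreeGroup.of, FreeGroup.inv_mk]; rfl

theorem lw_not (i : ι) (b : Bool) : lw (i, !b) = (lw (i, b))⁻¹ := by
  cases b <;> simp [lw_true, lw_false]

@[simp] theorem st_true (i : ι) : st s (i, true) = s i := by simp [st, lw_true]

@[simp] theorem st_false (i : ι) : st s (i, false) = (s i)⁻¹ := by simp [st, lw_false]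

theorem st_not (i : ι) (b : Bool) : st s (i, !b) = (st s (i, b))⁻¹ := by
  cases b <;> simp

theorem mk_cons (x : ι × Bool) (L : List (ι × Bool)) :
    FreeGroup.mk (x :: L) = lw x * FreeGroup.mk L := by
  rw [lw, FreeGroup.mul_mk]; rfl

theorem norm_lw (x : ι × Bool) : (lw x).norm ≤ 1 := FreeGroup.norm_mk_le

theorem edge_rev (g : G) (i : ι) (b : Bool) : edge s (g * st s (i, b)) (i, !b) = edge s g (i, b) := by
  cases b <;> simp [edge]

variable {s} {ω ω' : G × ι → Bool}

theorem openPath_cons {g : G} {x : ι × Bool} {L : List (ι × Bool)} :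
    OpenPath s ω g (x :: L) ↔ ω (edge s g x) = true ∧ OpenPath s ω (g * st s x) L := by
  obtain ⟨i, b⟩ := x
  cases b <;> simp [OpenPath, edge]

@[simp] theorem openPath_nil {g : G} : OpenPath s ω g [] := trivial

theorem openPath_append {g : G} {L L' : List (ι × Bool)} :
    OpenPath s ω g (L ++ L') ↔
      OpenPath s ω g L ∧ OpenPath s ω (g * FreeGroup.lift s (FreeGroup.mk L)) L' := by
  induction L generalizing g with
  | nil => simp [← FreeGroup.one_eq_mk]
  | cons x L ih =>
    rw [List.cons_append, openPath_cons, openPath_cons, ih, mk_cons, map_mul, and_assoc, mul_assoc]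
    rfl

theorem openPath_step {g : G} {L L' : List (ι × Bool)} (h : FreeGroup.Red.Step L L')
    (hp : OpenPath s ω g L) : OpenPath s ω g L' := by
  cases h with
  | @not L1 L2 x b =>
    rw [openPath_append, openPath_cons, openPath_cons, st_not] at hp
    rw [openPath_append]
    exact ⟨hp.1, by simpa using hp.2.2.2⟩

theorem openPath_red {g : G} {L L' : List (ι × Bool)} (h : FreeGroup.Red L L')
    (hp : OpenPath s ω g L) : OpenPath s ω g L' := by
  induction h with
  | refl => exact hp
  | tail _ h2 ih => exact openPath_step h2 ih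

theorem openPath_mk {g : G} {L : List (ι × Bool)} (hp : OpenPath s ω g L) :
    OpenPath s ω g (FreeGroup.mk L).toWord := openPath_red FreeGroup.reduce.red hp

theorem openPath_invRev {g : G} {L : List (ι × Bool)} (hp : OpenPath s ω g L) :
    OpenPath s ω (g * FreeGroup.lift s (FreeGroup.mk L)) (FreeGroup.invRev L) := by
  induction L generalizing g with
  | nil => simp [FreeGroup.invRev]
  | cons x L ih =>
    obtain ⟨i, b⟩ := x
    rw [openPath_cons] at hp
    rw [FreeGroup.invRev_cons, openPath_append, ← FreeGroup.inv_mk, mk_cons, map_mul, ← mul_assoc]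
    refine ⟨ih hp.2, ?_⟩
    have e : FreeGroup.invRev [(i, b)] = [(i, !b)] := rfl
    rw [e, map_inv, mul_inv_cancel_right, openPath_cons]
    exact ⟨(congrArg ω (edge_rev s g i b)).trans hp.1, trivial⟩

theorem openPath_mul {g : G} {w w' : FreeGroup ι} (h : OpenPath s ω g w.toWord)
    (h' : OpenPath s ω (g * FreeGroup.lift s w) w'.toWord) : OpenPath s ω g (w * w').toWord := by
  rw [FreeGroup.toWord_mul]
  refine openPath_red FreeGroup.reduce.red (openPath_append.2 ⟨h, ?_⟩)
  rwa [FreeGroup.mk_toWord]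

theorem openPath_inv {g : G} {w : FreeGroup ι} (h : OpenPath s ω g w.toWord) :
    OpenPath s ω (g * FreeGroup.lift s w) w⁻¹.toWord := by
  have := openPath_invRev h
  rwa [FreeGroup.mk_toWord, ← FreeGroup.toWord_inv] at this

theorem edge_mul (h g : G) (x : ι × Bool) :
    edge s (h * g) x = (h * (edge s g x).1, (edge s g x).2) := by
  obtain ⟨i, b⟩ := x
  cases b <;> simp [edge, mul_assoc]

theorem openPath_shift (h : G) {g : G} {L : List (ι × Bool)} :
    OpenPath s (shiftCfg h ω) (h * g) L ↔ OpenPath s ω g L := by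
  induction L generalizing g with
  | nil => simp
  | cons x L ih =>
    rw [openPath_cons, openPath_cons, mul_assoc, ih, edge_mul]
    simp [shiftCfg]

theorem isForest_shift (h : G) : IsForest s (shiftCfg h ω) ↔ IsForest s ω := by
  refine ⟨fun hF g w hp => hF (h * g) w ((openPath_shift h).2 hp), fun hF g w hp => hF (h⁻¹ * g) w ?_⟩
  rw [← openPath_shift h, mul_inv_cancel_left]
  exact hp

variable (s) in
/-- joined by a reduced walk in a forest -/
def FRel (ω : G × ι → Bool) (g : G) (w : FreeGroup ι) (g' : G) : Prop :=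
  OpenPath s ω g w.toWord ∧ g' = g * FreeGroup.lift s w ∧ (IsForest s ω ∨ w = 1)

theorem FRel.refl (g : G) : FRel s ω g 1 g := ⟨by simp, by simp, Or.inr rfl⟩

theorem FRel.symm {g g' : G} {w : FreeGroup ι} (h : FRel s ω g w g') : FRel s ω g' w⁻¹ g := by
  obtain ⟨h1, rfl, h3⟩ := h
  exact ⟨openPath_inv h1, by simp, h3.imp id fun e => by simp [e]⟩

theorem FRel.trans {g g' g'' : G} {w w' : FreeGroup ι} (h : FRel s ω g w g')
    (h' : FRel s ω g' w' g'') : FRel s ω g (w * w') g'' := by
  obtain ⟨h1, rfl, h3⟩ := h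
  obtain ⟨h1', rfl, h3'⟩ := h'
  refine ⟨openPath_mul h1 h1', by simp [mul_assoc], ?_⟩
  rcases h3 with h3 | rfl
  · exact Or.inl h3
  · simpa using h3'

theorem FRel.unique {g g' : G} {w w' : FreeGroup ι} (h : FRel s ω g w g')
    (h' : FRel s ω g w' g') : w = w' := by
  obtain ⟨h1, h2, h3⟩ := h.trans h'.symm
  rw [← mul_inv_eq_one]
  rcases h3 with h3 | h3
  · exact h3 g _ h1 (by simpa using h2.symm)
  · exact h3

theorem FRel.shift (h : G) {g g' : G} {w : FreeGroup ι} (hr : FRel s ω g w g') :
    FRel s (shiftCfg h ω) (h * g) w (h * g') := by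
  obtain ⟨h1, rfl, h3⟩ := hr
  exact ⟨(openPath_shift h).2 h1, (mul_assoc _ _ _).symm, h3.imp (isForest_shift h).2 id⟩

variable (s ω) in
theorem exists_pot : ∃ (cl : G → G) (φ : G → FreeGroup ι), ∀ v w v',
    FRel s ω v w v' ↔ cl v = cl v' ∧ w = (φ v)⁻¹ * φ v' := by
  let r : Setoid G := ⟨fun v v' => ∃ w, FRel s ω v w v', fun v => ⟨1, FRel.refl v⟩,
    fun ⟨_, h⟩ => ⟨_, h.symm⟩, fun ⟨_, h⟩ ⟨_, h'⟩ => ⟨_, h.trans h'⟩⟩
  have h1 : ∀ v, ∃ w, FRel s ω (Quotient.mk r v).out w v := fun v => Quotient.mk_out (s := r) v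
  choose φ hφ using h1
  refine ⟨fun v => (Quotient.mk r v).out, φ, fun v w v' => ⟨fun h => ?_, fun h => ?_⟩⟩
  · have e : Quotient.mk r v = Quotient.mk r v' := Quotient.sound ⟨w, h⟩
    refine ⟨by simp only [e], ?_⟩
    have h2 := (hφ v).trans h
    rw [e] at h2
    rw [← h2.unique (hφ v')]
    simp
  · have h2 := (hφ v).symm
    have h3 : (Quotient.mk r v).out = (Quotient.mk r v').out := h.1
    rw [h3] at h2
    rw [h.2]
    exact h2.trans (hφ v')

/-- the edge from the neighbour `(st x)⁻¹` to `1` is an edge of the forest -/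
def Op (s : ι → G) (x : ι × Bool) : Set (G × ι → Bool) :=
  {ω | IsForest s ω ∧ ω (edge s (st s x)⁻¹ x) = true}

theorem Op.rel {x : ι × Bool} (h : ω ∈ Op s x) : FRel s ω (st s x)⁻¹ (lw x) 1 := by
  refine ⟨?_, by simp [st], Or.inl h.1⟩
  change OpenPath s ω _ [x]
  exact openPath_cons.2 ⟨h.2, trivial⟩

theorem op_of_rel {i j : ι} (hij : i ≠ j) {b : Bool} {v : G}
    (h : FRel s ω (st s (i, b))⁻¹ (lw (i, b) * (lw (j, b))⁻¹) v) : ω ∈ Op s (i, b) := by
  have e : (lw (i, b) * (lw (j, b))⁻¹).toWord = [(i, b), (j, !b)] := by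
    rw [← lw_not, lw, lw, FreeGroup.mul_mk, FreeGroup.toWord_mk]
    simp [hij]
  obtain ⟨h1, -, h3⟩ := h
  rw [e, openPath_cons] at h1
  refine ⟨h3.resolve_right fun h4 => ?_, h1.1⟩
  rw [h4] at e
  simp at e

section Meas

variable [Countable G] [Countable ι]

theorem meas_edge (e : G × ι) : MeasurableSet {ω : G × ι → Bool | ω e = true} :=
  measurableSet_eq_fun (measurable_pi_apply e) measurable_const

theorem meas_openPath (g : G) (L : List (ι × Bool)) : MeasurableSet {ω | OpenPath s ω g L} := by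
  induction L generalizing g with
  | nil => simp
  | cons x L ih =>
    simp only [openPath_cons]
    exact (meas_edge _).inter (ih _)

theorem meas_forest : MeasurableSet {ω | IsForest s ω} := by
  have : {ω | IsForest s ω} = ⋂ g : G, ⋂ w : FreeGroup ι, ({ω | OpenPath s ω g w.toWord}ᶜ ∪
      {_ω | FreeGroup.lift s w = 1 → w = 1}) := by
    ext ω
    simp only [IsForest, Set.mem_setOf_eq, Set.mem_iInter, Set.mem_union, Set.mem_compl_iff]
    exact forall₂_congr fun g w => imp_iff_not_or
  rw [this]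
  exact MeasurableSet.iInter fun g => MeasurableSet.iInter fun w =>
    (meas_openPath _ _).compl.union (MeasurableSet.const _)

theorem meas_rel (g : G) (w : FreeGroup ι) (g' : G) : MeasurableSet {ω | FRel s ω g w g'} :=
  (meas_openPath _ _).inter ((MeasurableSet.const _).inter
    (meas_forest.union (MeasurableSet.const _)))

theorem meas_op (x : ι × Bool) : MeasurableSet (Op s x) := meas_forest.inter (meas_edge _)

theorem meas_shift (h : G) : Measurable (shiftCfg h : (G × ι → Bool) → (G × ι → Bool)) :=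
  measurable_pi_lambda _ fun _ => measurable_pi_apply _

/-- long connections are unlikely -/
theorem exists_tail (μ : Measure (G × ι → Bool)) [IsProbabilityMeasure μ] (g g' : G) {ε : ℝ}
    (hε : 0 < ε) : ∀ᶠ n : ℕ in Filter.atTop,
      μ.real {ω | ∃ w, n < w.norm ∧ FRel s ω g w g'} ≤ ε := by
  let U : ℕ → Set (G × ι → Bool) := fun n => {ω | ∃ w, n < w.norm ∧ FRel s ω g w g'}
  have hm : ∀ n, MeasurableSet (U n) := fun n => by
    have : U n = ⋃ w : FreeGroup ι, {_ω | n < w.norm} ∩ {ω | FRel s ω g w g'} := by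
      ext ω; simp [U]
    rw [this]
    exact MeasurableSet.iUnion fun w => (MeasurableSet.const _).inter (meas_rel _ _ _)
  have ha : Antitone U := fun n m hnm ω ⟨w, h1, h2⟩ => ⟨w, lt_of_le_of_lt hnm h1, h2⟩
  have he : ⋂ n, U n = ∅ := by
    refine Set.eq_empty_of_forall_notMem fun ω h => ?_
    rw [Set.mem_iInter] at h
    obtain ⟨w, -, h1⟩ := h 0
    obtain ⟨w', h2, h3⟩ := h w.norm
    rw [h1.unique h3] at h2
    exact lt_irrefl _ h2
  have ht := tendsto_measure_iInter_atTop (μ := μ) (fun n => (hm n).nullMeasurableSet) ha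
    ⟨0, measure_ne_top _ _⟩
  rw [he, measure_empty] at ht
  have ht2 := (ENNReal.tendsto_toReal ENNReal.zero_ne_top).comp ht
  exact (ht2.eventually (gt_mem_nhds (by simpa using hε))).mono fun n hn => le_of_lt hn

end Meas

/-- finite quotients of a free group separate short words -/
theorem exists_quot [Finite ι] (n : ℕ) : ∃ (Q : Type) (_ : Group Q) (_ : Fintype Q)
    (_ : DecidableEq Q) (θ : FreeGroup ι →* Q), ∀ w, w.norm ≤ n → θ w = 1 → w = 1 := by
  classical
  let B : Set (FreeGroup ι) := {w | w.norm ≤ n}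
  have hB : B.Finite := by
    refine ((List.finite_length_le (ι × Bool) n).image FreeGroup.mk).subset fun w hw => ?_
    exact ⟨w.toWord, hw, FreeGroup.mk_toWord⟩
  haveI : Finite B := hB
  letI : Fintype B := Fintype.ofFinite B
  have h1 : ∀ i : ι, ∃ σ : Equiv.Perm B, ∀ (a : B) (h : FreeGroup.of i * a.1 ∈ B),
      σ a = ⟨_, h⟩ := by
    intro i
    obtain ⟨σ, hσ⟩ := Equiv.Perm.exists_extending_pair
      (α := {a : B // FreeGroup.of i * a.1 ∈ B}) (f := fun a => a.1) (g := fun a => (⟨_, a.2⟩ : B))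
      Subtype.val_injective fun a b h => by
        have := congrArg Subtype.val h
        exact Subtype.ext (Subtype.ext (mul_left_cancel this))
    exact ⟨σ, fun a h => hσ ⟨a, h⟩⟩
  choose σ hσ using h1
  have h0 : (1 : FreeGroup ι) ∈ B := by simp [B]
  have key : ∀ L : List (ι × Bool), L.length ≤ n →
      (FreeGroup.lift σ (FreeGroup.mk L) ⟨1, h0⟩).1 = FreeGroup.mk L := by
    intro L
    induction L with
    | nil => intro _; simp [← FreeGroup.one_eq_mk]
    | cons x L ih =>
      intro hL
      have hL' : L.length ≤ n := le_trans (Nat.le_succ _) hL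
      have hm : FreeGroup.mk L ∈ B := FreeGroup.norm_mk_le.trans hL'
      have hm' : FreeGroup.mk (x :: L) ∈ B := FreeGroup.norm_mk_le.trans hL
      have e : FreeGroup.lift σ (FreeGroup.mk L) ⟨1, h0⟩ = ⟨_, hm⟩ := Subtype.ext (ih hL')
      rw [mk_cons] at hm' ⊢
      rw [map_mul, Equiv.Perm.mul_apply, e]
      obtain ⟨i, b⟩ := x
      cases b
      · rw [lw_false] at hm' ⊢
        have h2 := hσ i ⟨_, hm'⟩ (by simpa using hm)
        rw [map_inv, FreeGroup.lift_apply_of]
        have h3 : (σ i)⁻¹ ⟨_, hm⟩ = ⟨_, hm'⟩ := by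
          rw [Equiv.Perm.inv_eq_iff_eq, h2]
          exact Subtype.ext (by simp)
        rw [h3]
      · rw [lw_true] at hm' ⊢
        rw [FreeGroup.lift_apply_of, hσ i ⟨_, hm⟩ hm']
  refine ⟨Equiv.Perm B, inferInstance, inferInstance, inferInstance, FreeGroup.lift σ,
    fun w hw h => ?_⟩
  have h2 := key w.toWord hw
  rw [FreeGroup.mk_toWord, h] at h2
  exact h2.symm

end Pool.Agent.P.MP_95bcfc_an.EM
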