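import Mathlib

set_option autoImplicit false
set_option linter.unusedSectionVars false
set_option linter.deprecated false
set_option linter.style.haveILetI false

open scoped InnerProductSpace

namespace Pool.Agent.P.MP_95bcfc_an.EM

variable {E : Type} [NormedAddCommGroup E] [InnerProductSpace ℂ E]

/-- approximate top singular vectors -/
theorem perron {M : Type} [AddCommGroup M] [Module ℂ M] (J : M →ₗ[ℂ] E) (A A' : M →ₗ[ℂ] M)
    (hadj : ∀ f f', ⟪J f', J (A f)⟫_ℂ = ⟪J (A' f'), J f⟫_ℂ) {C : ℝ}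
    (hC : ∀ f, ‖J (A f)‖ ≤ C * ‖J f‖) {u : M} (hu : ‖J u‖ = 1) {d : ℝ} (hd : 0 < d)
    (hud : d ≤ ‖J (A u)‖) {η : ℝ} (hη : 0 < η) :
    ∃ (l : ℝ) (h0 h1 : M), d ≤ l ∧ ‖J h0‖ = 1 ∧ ‖J h1‖ = 1 ∧
      ‖J (A h0) - (l : ℂ) • J h1‖ ≤ η * l ∧ ‖J (A' h1) - (l : ℂ) • J h0‖ ≤ η * l := by
  let T : Set ℝ := {t | ∃ f, ‖J f‖ = 1 ∧ t = ‖J (A f)‖}
  have hne : T.Nonempty := ⟨_, u, hu, rfl⟩
  have hbd : BddAbove T := ⟨C, by
    rintro _ ⟨f, h1, rfl⟩
    simpa [h1] using hC f⟩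
  set l := sSup T with hl
  have hdl : d ≤ l := hud.trans (le_csSup hbd ⟨u, hu, rfl⟩)
  have hl0 : 0 < l := hd.trans_le hdl
  have hA : ∀ f, ‖J (A f)‖ ≤ l * ‖J f‖ := by
    intro f
    rcases (norm_nonneg (J f)).eq_or_lt with h | h
    · have := hC f
      rw [← h] at this ⊢
      simpa using this
    · have h1 : ‖J (((‖J f‖⁻¹ : ℝ) : ℂ) • f)‖ = 1 := by
        rw [map_smul, norm_smul, Complex.norm_real, norm_inv, norm_norm, inv_mul_cancel₀ h.ne']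
      have h2 := le_csSup hbd ⟨_, h1, rfl⟩
      rw [map_smul, map_smul, norm_smul, Complex.norm_real, norm_inv, norm_norm,
        inv_mul_le_iff₀ h] at h2
      rwa [mul_comm]
  have hA' : ∀ f, ‖J (A' f)‖ ≤ l * ‖J f‖ := by
    intro f
    have h1 : ‖J (A' f)‖ ^ 2 ≤ ‖J f‖ * (l * ‖J (A' f)‖) := by
      calc ‖J (A' f)‖ ^ 2 = ‖⟪J (A' f), J (A' f)⟫_ℂ‖ := by simp [inner_self_eq_norm_sq_to_K]
        _ = ‖⟪J f, J (A (A' f))⟫_ℂ‖ := by rw [hadj]
        _ ≤ ‖J f‖ * ‖J (A (A' f))‖ := norm_inner_le_norm _ _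
        _ ≤ _ := mul_le_mul_of_nonneg_left (hA _) (norm_nonneg _)
    rcases (norm_nonneg (J (A' f))).eq_or_lt with h | h
    · rw [← h]; positivity
    · nlinarith
  set η' : ℝ := min (1 / 2) (min η (η ^ 2 / 2)) with hη'
  have hη0 : 0 < η' := by positivity
  have h1 : η' ≤ 1 / 2 := min_le_left _ _
  have h2 : η' ≤ η := (min_le_right _ _).trans (min_le_left _ _)
  have h3 : η' ≤ η ^ 2 / 2 := (min_le_right _ _).trans (min_le_right _ _)
  obtain ⟨_, ⟨h0, hh0, rfl⟩, ha⟩ := exists_lt_of_lt_csSup hne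
    (show l - η' * l < l by nlinarith)
  set a := ‖J (A h0)‖ with haa
  have hal : a ≤ l := by simpa [hh0] using hA h0
  have ha0 : 0 < a := by nlinarith
  have hac : (a : ℂ) ≠ 0 := by exact_mod_cast ha0.ne'
  have e : J (A h0) = (a : ℂ) • J (((a⁻¹ : ℝ) : ℂ) • A h0) := by
    rw [map_smul, smul_smul]
    push_cast
    rw [mul_inv_cancel₀ hac, one_smul]
  have hh1 : ‖J (((a⁻¹ : ℝ) : ℂ) • A h0)‖ = 1 := by
    rw [map_smul, norm_smul, Complex.norm_real, norm_inv, Real.norm_of_nonneg ha0.le,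
      inv_mul_cancel₀ ha0.ne']
  refine ⟨l, h0, ((a⁻¹ : ℝ) : ℂ) • A h0, hdl, hh0, hh1, ?_, ?_⟩
  · set h1' := ((a⁻¹ : ℝ) : ℂ) • A h0
    rw [e, ← sub_smul, norm_smul, hh1, ← Complex.ofReal_sub, Complex.norm_real, Real.norm_eq_abs,
      abs_sub_comm, abs_of_nonneg (by linarith)]
    nlinarith
  · set h1' := ((a⁻¹ : ℝ) : ℂ) • A h0
    refine (sq_le_sq₀ (norm_nonneg _) (by positivity)).1 ?_
    have h4 : (⟪J (A' h1'), (l : ℂ) • J h0⟫_ℂ).re = l * a := by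
      rw [inner_smul_right, ← hadj, e, inner_smul_right, inner_self_eq_norm_sq_to_K, hh1]
      simp
    have h5 := hA' h1'
    rw [hh1, mul_one] at h5
    have h6 := pow_le_pow_left₀ (norm_nonneg _) h5 2
    rw [@norm_sub_sq ℂ, norm_smul, hh0, Complex.norm_real, Real.norm_of_nonneg hl0.le]
    change _ - 2 * Complex.re _ + _ ≤ _
    rw [h4]
    nlinarith [mul_pos hl0 hl0]

variable {ι : Type} [DecidableEq ι]

/-- greedy balancing of two families of vectors -/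
theorem split (s : Finset ι) (v w : ι → E) : ∃ t ⊆ s,
    ‖∑ i ∈ t, v i - ∑ i ∈ s \ t, v i‖ ^ 2 + ‖∑ i ∈ t, w i - ∑ i ∈ s \ t, w i‖ ^ 2 ≤
      ∑ i ∈ s, (‖v i‖ ^ 2 + ‖w i‖ ^ 2) := by
  induction s using Finset.induction_on with
  | empty => exact ⟨∅, Finset.Subset.refl _, by simp⟩
  | insert a s ha ih =>
    obtain ⟨t, ht, h⟩ := ih
    have hat : a ∉ t := fun h' => ha (ht h')
    have e1 : insert a s \ insert a t = s \ t := by
      ext x
      simp only [Finset.mem_sdiff, Finset.mem_insert, not_or]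
      exact ⟨fun h => ⟨h.1.resolve_left h.2.1, h.2.2⟩,
        fun h => ⟨Or.inr h.1, fun e => ha (e ▸ h.1), h.2⟩⟩
    have e2 : insert a s \ t = insert a (s \ t) := Finset.insert_sdiff_of_notMem s hat
    have hast : a ∉ s \ t := fun h' => ha (Finset.mem_sdiff.1 h').1
    set x := ∑ i ∈ t, v i - ∑ i ∈ s \ t, v i with hx
    set y := ∑ i ∈ t, w i - ∑ i ∈ s \ t, w i with hy
    have p1 := parallelogram_law_with_norm ℂ x (v a)
    have p2 := parallelogram_law_with_norm ℂ y (w a)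
    rw [Finset.sum_insert ha]
    by_cases hc : ‖x + v a‖ ^ 2 + ‖y + w a‖ ^ 2 ≤ ‖x - v a‖ ^ 2 + ‖y - w a‖ ^ 2
    · refine ⟨insert a t, Finset.insert_subset_insert a ht, ?_⟩
      rw [e1, Finset.sum_insert hat, Finset.sum_insert hat, add_sub_assoc, add_sub_assoc, ← hx,
        ← hy, add_comm (v a), add_comm (w a)]
      nlinarith
    · refine ⟨t, ht.trans (Finset.subset_insert _ _), ?_⟩
      rw [e2, Finset.sum_insert hast, Finset.sum_insert hast, add_comm (v a), add_comm (w a),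
        ← sub_sub, ← sub_sub, ← hx, ← hy]
      nlinarith

theorem split' (s : Finset ι) (v : Bool → ι → E) (hv : ∀ b i, ‖v b i‖ ≤ 1) {r : ℝ} (hr : 0 ≤ r)
    (hs : 2 * (s.card : ℝ) ≤ r ^ 2) : ∃ t ⊆ s, ∀ b,
      ‖(2 : ℂ) • ∑ i ∈ t, v b i - ∑ i ∈ s, v b i‖ ≤ r ∧
      ‖(2 : ℂ) • ∑ i ∈ s \ t, v b i - ∑ i ∈ s, v b i‖ ≤ r := by
  obtain ⟨t, ht, h⟩ := split s (v true) (v false)
  have h1 : ∑ i ∈ s, (‖v true i‖ ^ 2 + ‖v false i‖ ^ 2) ≤ r ^ 2 := by
    refine le_trans ?_ hs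
    refine (Finset.sum_le_card_nsmul s _ 2 fun i _ => ?_).trans (by simp [mul_comm])
    have := pow_le_pow_left₀ (norm_nonneg _) (hv true i) 2
    have := pow_le_pow_left₀ (norm_nonneg _) (hv false i) 2
    linarith
  refine ⟨t, ht, fun b => ?_⟩
  have h2 : ‖∑ i ∈ t, v b i - ∑ i ∈ s \ t, v b i‖ ≤ r := by
    refine (sq_le_sq₀ (norm_nonneg _) hr).1 ?_
    cases b <;> nlinarith [sq_nonneg ‖∑ i ∈ t, v true i - ∑ i ∈ s \ t, v true i‖,
      sq_nonneg ‖∑ i ∈ t, v false i - ∑ i ∈ s \ t, v false i‖]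
  rw [← Finset.sum_sdiff ht]
  constructor
  · convert h2 using 2
    rw [two_smul]; abel
  · rw [norm_sub_rev] at h2
    refine le_of_eq_of_le (congrArg _ ?_) h2
    rw [two_smul]; abel

/-- three disjoint classes, each carrying a quarter of the sum -/
theorem classes [Fintype ι] (v : Bool → ι → E) (hv : ∀ b i, ‖v b i‖ ≤ 1) {r : ℝ} (hr : 0 ≤ r)
    (hs : 2 * (Fintype.card ι : ℝ) ≤ r ^ 2) : ∃ c : Option (Fin 2) → Finset ι,
      (∀ k k' i, i ∈ c k → i ∈ c k' → k = k') ∧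
      ∀ k b, ‖(4 : ℂ) • ∑ i ∈ c k, v b i - ∑ i, v b i‖ ≤ 3 * r := by
  have hc : ∀ s : Finset ι, 2 * (s.card : ℝ) ≤ r ^ 2 := fun s => by
    have : (s.card : ℝ) ≤ Fintype.card ι := by exact_mod_cast Finset.card_le_univ s
    linarith
  obtain ⟨t, -, h⟩ := split' Finset.univ v hv hr (hc _)
  obtain ⟨t1, ht1, h1⟩ := split' t v hv hr (hc _)
  obtain ⟨t2, ht2, h2⟩ := split' (Finset.univ \ t) v hv hr (hc _)
  have key : ∀ x y z : E, ‖(2 : ℂ) • x - y‖ ≤ r → ‖(2 : ℂ) • y - z‖ ≤ r →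
      ‖(4 : ℂ) • x - z‖ ≤ 3 * r := by
    intro x y z a b
    have e : (4 : ℂ) • x - z = (2 : ℂ) • ((2 : ℂ) • x - y) + ((2 : ℂ) • y - z) := by
      rw [smul_sub, smul_smul]
      norm_num
    rw [e]
    refine (norm_add_le _ _).trans ?_
    rw [norm_smul, Complex.norm_two]
    linarith
  refine ⟨fun k => k.elim t2 ![t1, t \ t1], ?_, ?_⟩
  · intro k k' i a b
    have a1 : i ∈ t2 → i ∉ t := fun h => (Finset.mem_sdiff.1 (ht2 h)).2
    have a2 : i ∈ t1 → i ∈ t := fun h => ht1 h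
    rcases k with _ | k <;> rcases k' with _ | k'
    · rfl
    · fin_cases k' <;> simp at a b <;> tauto
    · fin_cases k <;> simp at a b <;> tauto
    · fin_cases k <;> fin_cases k' <;> simp at a b ⊢ <;> tauto
  · intro k b
    rcases k with _ | k
    · exact key _ _ _ (h2 b).1 (h b).2
    · fin_cases k
      · exact key _ _ _ (h1 b).1 (h b).1
      · exact key _ _ _ (h1 b).2 (h b).1

end Pool.Agent.P.MP_95bcfc_an.EM
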