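import Pool.Agent.P.MP_95bcfc_an.Induce
import Pool.Agent.P.MP_95bcfc_an.EM.Path
import Pool.Agent.P.MP_95bcfc_an.EM.Perron
import Pool.Agent.P.MP_95bcfc_an.EM.Transfer2

set_option autoImplicit false
set_option linter.unusedSectionVars false
set_option linter.deprecated false
set_option linter.style.haveILetI false

open scoped InnerProductSpace ComplexConjugate
open MeasureTheory

namespace Pool.Agent.P.MP_95bcfc_an.EM

section L2

variable {X : Type} [MeasurableSpace X] (μ : Measure X) [IsProbabilityMeasure μ]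

theorem memLp_BM (f : BM X) : MemLp f.1 2 μ := by
  obtain ⟨C, hC⟩ := f.2.2
  exact MemLp.of_bound f.2.1.aestronglyMeasurable C (Filter.Eventually.of_forall hC)

/-- bounded measurable functions as square integrable functions -/
noncomputable def JJ : BM X →ₗ[ℂ] Lp ℂ 2 μ where
  toFun f := (memLp_BM μ f).toLp f.1
  map_add' f g := MemLp.toLp_add (memLp_BM μ f) (memLp_BM μ g)
  map_smul' c f := MemLp.toLp_const_smul c (memLp_BM μ f)

theorem coe_JJ (f : BM X) : JJ μ f =ᵐ[μ] f.1 := (memLp_BM μ f).coeFn_toLp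

theorem inner_JJ (f g : BM X) : ⟪JJ μ f, JJ μ g⟫_ℂ = ∫ ω, conj (f.1 ω) * g.1 ω ∂μ := by
  rw [L2.inner_def]
  refine integral_congr_ae ?_
  filter_upwards [coe_JJ μ f, coe_JJ μ g] with ω h1 h2
  rw [h1, h2, RCLike.inner_apply, mul_comm]

theorem norm_JJ_mono {f g : BM X} (h : ∀ ω, ‖f.1 ω‖ ≤ ‖g.1 ω‖) : ‖JJ μ f‖ ≤ ‖JJ μ g‖ := by
  refine Lp.norm_le_norm_of_ae_le ?_
  filter_upwards [coe_JJ μ f, coe_JJ μ g] with ω h1 h2
  rw [h1, h2]
  exact h ω

theorem norm_JJ_one : ‖JJ μ 1‖ = 1 := by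
  rw [@norm_eq_sqrt_re_inner ℂ, inner_JJ]
  simp

end L2

section Gen

variable {W G X : Type} [Group W] [Group G] [MeasurableSpace X] [MulAction G X]
  [MeasurableConstSMul G X] {μ : Measure X} [IsProbabilityMeasure μ] [SMulInvariantMeasure G X μ]
  {L : Type} [NormedAddCommGroup L] [InnerProductSpace ℂ L] [CompleteSpace L]
  {S : Sys W G X} {σ : F2 →* unitary (L →L[ℂ] L)}
  {H : Type} [NormedAddCommGroup H] [InnerProductSpace ℂ H] {e : BM X × G × L → H}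

theorem e_rel (he : ∀ y y', ⟪e y, e y'⟫_ℂ = ∫ ω, S.kf σ y y' ω ∂μ) {f f' : BM X} {v v' : G}
    {u : F2} (h : ∀ ω, f.1 ω ≠ 0 → S.Rel ω v u v') (ξ η : L) :
    ⟪e (f, v, ξ), e (f', v', η)⟫_ℂ = ⟪JJ μ f, JJ μ f'⟫_ℂ * ⟪ξ, (σ u : L →L[ℂ] L) η⟫_ℂ := by
  rw [he, inner_JJ, ← integral_mul_const]
  refine integral_congr_ae (Filter.Eventually.of_forall fun ω => ?_)
  simp only [Sys.kf]
  by_cases h0 : f.1 ω = 0
  · simp [h0]
  · rw [Sys.κ_of_rel σ (h ω h0)]

theorem e_same (he : ∀ y y', ⟪e y, e y'⟫_ℂ = ∫ ω, S.kf σ y y' ω ∂μ) (f f' : BM X) (v : G)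
    (ξ η : L) : ⟪e (f, v, ξ), e (f', v, η)⟫_ℂ = ⟪JJ μ f, JJ μ f'⟫_ℂ * ⟪ξ, η⟫_ℂ := by
  simpa using e_rel he (f := f) (f' := f') (fun ω _ => Sys.rel_refl ω v) ξ η

theorem norm_e (he : ∀ y y', ⟪e y, e y'⟫_ℂ = ∫ ω, S.kf σ y y' ω ∂μ) (f : BM X) (v : G) (ξ : L) :
    ‖e (f, v, ξ)‖ = ‖JJ μ f‖ * ‖ξ‖ := by
  have h := e_same he f f v ξ ξ
  simp only [inner_self_eq_norm_sq_to_K] at h
  refine (sq_eq_sq₀ (norm_nonneg _) (by positivity)).1 ?_
  rw [mul_pow]
  exact_mod_cast h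

/-- the generating vectors depend linearly on the function -/
noncomputable def eL (he : ∀ y y', ⟪e y, e y'⟫_ℂ = ∫ ω, S.kf σ y y' ω ∂μ) (v : G) (ξ : L) :
    BM X →ₗ[ℂ] H where
  toFun f := e (f, v, ξ)
  map_add' a b := by
    rw [← sub_eq_zero, ← @inner_self_eq_zero ℂ]
    simp only [inner_sub_left, inner_sub_right, inner_add_left, inner_add_right, e_same he, map_add]
    ring
  map_smul' c a := by
    rw [← sub_eq_zero, ← @inner_self_eq_zero ℂ]
    simp only [inner_sub_left, inner_sub_right, inner_smul_left, inner_smul_right, e_same he,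
      map_smul, RingHom.id_apply]
    ring

theorem eL_apply (he : ∀ y y', ⟪e y, e y'⟫_ℂ = ∫ ω, S.kf σ y y' ω ∂μ) (v : G) (ξ : L) (f : BM X) :
    eL he v ξ f = e (f, v, ξ) := rfl

theorem e_move (he : ∀ y y', ⟪e y, e y'⟫_ℂ = ∫ ω, S.kf σ y y' ω ∂μ) {f : BM X} {v v' : G}
    {u : F2} (h : ∀ ω, f.1 ω ≠ 0 → S.Rel ω v u v') (ξ : L) :
    e (f, v, ξ) = e (f, v', (σ u⁻¹ : L →L[ℂ] L) ξ) := by
  have h1 := e_rel he (f' := f) h ξ ((σ u⁻¹ : L →L[ℂ] L) ξ)
  rw [← ContinuousLinearMap.mul_apply, ← Submonoid.coe_mul, ← MonoidHom.map_mul,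
    mul_inv_cancel, map_one, OneMemClass.coe_one, ContinuousLinearMap.one_apply] at h1
  have h2 : ⟪e (f, v', (σ u⁻¹ : L →L[ℂ] L) ξ), e (f, v, ξ)⟫_ℂ =
      ⟪JJ μ f, JJ μ f⟫_ℂ * ⟪ξ, ξ⟫_ℂ := by
    rw [← inner_conj_symm, h1, map_mul, inner_conj_symm, inner_conj_symm]
  rw [← sub_eq_zero, ← @inner_self_eq_zero ℂ, inner_sub_left, inner_sub_right, inner_sub_right,
    h1, h2, e_same he, e_same he, uni_inner_map]
  ring

theorem norm_sum_sq_le {ι : Type} [DecidableEq ι] (c : Finset ι) (y : ι → H) {a b : ℝ}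
    (hb : 0 ≤ b) (h1 : ∀ i ∈ c, ‖y i‖ ^ 2 ≤ a)
    (h2 : ∀ i ∈ c, ∀ j ∈ c, i ≠ j → ‖⟪y i, y j⟫_ℂ‖ ≤ b) :
    ‖∑ i ∈ c, y i‖ ^ 2 ≤ c.card * a + (c.card : ℝ) ^ 2 * b := by
  have e1 : ‖∑ i ∈ c, y i‖ ^ 2 = ‖⟪∑ i ∈ c, y i, ∑ i ∈ c, y i⟫_ℂ‖ := by
    simp [inner_self_eq_norm_sq_to_K]
  rw [e1, sum_inner]
  refine (norm_sum_le _ _).trans ((Finset.sum_le_card_nsmul c _ (a + c.card * b)
    fun i hi => ?_).trans (le_of_eq (by rw [nsmul_eq_mul]; ring)))
  rw [inner_sum]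
  refine (norm_sum_le _ _).trans ((Finset.sum_le_sum
    (g := fun j => (if i = j then a else 0) + b) fun j hj => ?_).trans (le_of_eq ?_))
  · by_cases hij : i = j
    · subst hij
      have : ‖⟪y i, y i⟫_ℂ‖ = ‖y i‖ ^ 2 := by simp [inner_self_eq_norm_sq_to_K]
      simp only [if_true, this]
      linarith [h1 i hi]
    · simpa [hij] using h2 i hi j hj hij
  · rw [Finset.sum_add_distrib, Finset.sum_ite_eq, if_pos hi, Finset.sum_const, nsmul_eq_mul]

end Gen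

section Cfg

variable {G ι : Type} [Group G] [Countable G] [Fintype ι] [DecidableEq ι] (s : ι → G)
  {μ : Measure (G × ι → Bool)} [IsProbabilityMeasure μ]

theorem shiftCfg_mul (g h : G) (ω : G × ι → Bool) :
    shiftCfg (g * h) ω = shiftCfg g (shiftCfg h ω) := by
  funext e; simp [shiftCfg, mul_assoc]

theorem shiftCfg_one (ω : G × ι → Bool) : shiftCfg (1 : G) ω = ω := by
  funext e; simp [shiftCfg]

/-- translate of a function -/
def shf (h : G) (f : BM (G × ι → Bool)) : BM (G × ι → Bool) :=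
  ⟨fun ω => f.1 (shiftCfg h⁻¹ ω), f.2.1.comp (meas_shift _), f.2.2.imp fun _ hC _ => hC _⟩

theorem int_shift (hμ : ∀ g : G, μ.map (shiftCfg g) = μ) (h : G) {F : (G × ι → Bool) → ℂ}
    (hF : Measurable F) : ∫ ω, F (shiftCfg h ω) ∂μ = ∫ ω, F ω ∂μ := by
  rw [← integral_map (meas_shift h).aemeasurable hF.aestronglyMeasurable, hμ]

theorem norm_JJ_shf (hμ : ∀ g : G, μ.map (shiftCfg g) = μ) (h : G) (f : BM (G × ι → Bool)) :
    ‖JJ μ (shf h f)‖ = ‖JJ μ f‖ := by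
  rw [@norm_eq_sqrt_re_inner ℂ, @norm_eq_sqrt_re_inner ℂ, inner_JJ, inner_JJ]
  exact congrArg _ (congrArg _ (int_shift hμ h⁻¹ (F := fun ω => conj (f.1 ω) * f.1 ω)
    ((Complex.continuous_conj.measurable.comp f.2.1).mul f.2.1)))

/-- indicator of a forest edge at the identity -/
noncomputable def iop (x : ι × Bool) : BM (G × ι → Bool) := BM.ind (Op s x) (meas_op x)

open Classical in
theorem iop_apply (x : ι × Bool) (ω : G × ι → Bool) :
    (iop s x).1 ω = if ω ∈ Op s x then 1 else 0 := rfl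

/-- partial shift along a forest edge -/
noncomputable def Aop (x : ι × Bool) : BM (G × ι → Bool) →ₗ[ℂ] BM (G × ι → Bool) where
  toFun f := iop s x * shf (st s x)⁻¹ f
  map_add' f g := by rw [← mul_add]; rfl
  map_smul' c f := by rw [RingHom.id_apply, ← mul_smul_comm]; rfl

theorem Aop_apply (x : ι × Bool) (f : BM (G × ι → Bool)) (ω : G × ι → Bool) :
    (Aop s x f).1 ω = (iop s x).1 ω * f.1 (shiftCfg (st s x) ω) := by
  change (iop s x).1 ω * f.1 (shiftCfg (st s x)⁻¹⁻¹ ω) = _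
  rw [inv_inv]

theorem op_shift (i : ι) (b : Bool) (ω : G × ι → Bool) :
    shiftCfg (st s (i, b)) ω ∈ Op s (i, !b) ↔ ω ∈ Op s (i, b) := by
  refine and_congr (isForest_shift _) ?_
  have h1 := edge_rev s 1 i b
  have h2 := edge_mul (s := s) (st s (i, b))⁻¹ 1 (i, b)
  rw [one_mul] at h1
  rw [mul_one] at h2
  rw [st_not, inv_inv, h1, h2]
  rfl

theorem Aop_adj (hμ : ∀ g : G, μ.map (shiftCfg g) = μ) (i : ι) (b : Bool)
    (f f' : BM (G × ι → Bool)) :
    ⟪JJ μ f', JJ μ (Aop s (i, b) f)⟫_ℂ = ⟪JJ μ (Aop s (i, !b) f'), JJ μ f⟫_ℂ := by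
  rw [inner_JJ, inner_JJ, ← int_shift hμ (st s (i, b))
    (F := fun ω => conj ((Aop s (i, !b) f').1 ω) * f.1 ω)
    ((Complex.continuous_conj.measurable.comp (Aop s (i, !b) f').2.1).mul f.2.1)]
  refine integral_congr_ae (Filter.Eventually.of_forall fun ω => ?_)
  have h := op_shift s i b ω
  simp only [Aop_apply, iop_apply, st_not, ← shiftCfg_mul, inv_mul_cancel, shiftCfg_one]
  by_cases h1 : ω ∈ Op s (i, b)
  · simp [h1, h.2 h1]
  · simp [h1, mt h.1 h1]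

theorem norm_Aop (hμ : ∀ g : G, μ.map (shiftCfg g) = μ) (x : ι × Bool) (f : BM (G × ι → Bool)) :
    ‖JJ μ (Aop s x f)‖ ≤ ‖JJ μ f‖ := by
  rw [← norm_JJ_shf hμ (st s x)⁻¹ f]
  refine norm_JJ_mono μ fun ω => ?_
  change ‖(iop s x).1 ω * (shf (st s x)⁻¹ f).1 ω‖ ≤ _
  rw [iop_apply]
  split_ifs <;> simp

theorem deg_le (hF : ∀ᵐ ω ∂μ, IsForest s ω) :
    ∑ i, μ.real {ω | ω (1, i) = true} ≤ ‖JJ μ ((∑ i, Aop s (i, false)) 1)‖ := by
  have h1 : ∀ i, ⟪JJ μ 1, JJ μ (Aop s (i, false) 1)⟫_ℂ = (μ.real {ω | ω (1, i) = true} : ℝ) := by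
    intro i
    have h2 : μ.real {ω | ω (1, i) = true} = μ.real (Op s (i, false)) := by
      refine measureReal_congr ?_
      filter_upwards [hF] with ω hω
      refine propext ?_
      change ω (1, i) = true ↔ IsForest s ω ∧ _
      simp [hω, edge]
    rw [inner_JJ, h2, ← integral_indicator_one (meas_op _), ← integral_complex_ofReal]
    refine integral_congr_ae (Filter.Eventually.of_forall fun ω => ?_)
    simp only [Aop_apply, iop_apply]
    by_cases h : ω ∈ Op s (i, false) <;> simp [h]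
  have h3 := norm_inner_le_norm (𝕜 := ℂ) (JJ μ 1) (JJ μ ((∑ i, Aop s (i, false)) 1))
  rw [norm_JJ_one, one_mul] at h3
  refine le_trans ?_ h3
  rw [LinearMap.sum_apply, map_sum, inner_sum]
  simp only [h1]
  rw [← Complex.ofReal_sum, Complex.norm_real]
  exact le_abs_self _

variable (Q : Type) [Group Q]

/-- the action of `G × Q` through `G` -/
@[reducible] def act : MulAction (G × Q) (G × ι → Bool) where
  smul p ω := shiftCfg p.1 ω
  one_smul := shiftCfg_one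
  mul_smul p q := shiftCfg_mul p.1 q.1

attribute [local instance] act

theorem act_meas : MeasurableConstSMul (G × Q) (G × ι → Bool) := ⟨fun p => meas_shift p.1⟩

attribute [local instance] act_meas

theorem act_inv (hμ : ∀ g : G, μ.map (shiftCfg g) = μ) :
    SMulInvariantMeasure (G × Q) (G × ι → Bool) μ :=
  ⟨fun p A hA => by
    change μ (shiftCfg p.1 ⁻¹' A) = _
    rw [← Measure.map_apply (meas_shift _) hA, hμ]⟩

variable {Q} {W : Type} [Group W] (q : W →* G) (θ : FreeGroup ι →* Q) (β : FreeGroup ι →* F2)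

/-- the forest lifted to the covering given by `θ`, labelled by `β` -/
def sys : Sys W (G × Q) (G × ι → Bool) where
  q := q.prod 1
  χ _ := 1
  χ_norm _ _ := by simp
  χ_one := rfl
  χ_mul _ _ _ := by simp
  Rel ω v u v' := ∃ w, FRel s ω v.1 w v'.1 ∧ u = β w ∧ v'.2 = v.2 * θ w
  pot ω := by
    obtain ⟨cl, φ, h⟩ := exists_pot s ω
    refine ⟨G × Q, fun v => (cl v.1, v.2 * (θ (φ v.1))⁻¹), fun v => β (φ v.1),
      fun v u v' => ⟨?_, ?_⟩⟩
    · rintro ⟨w, h1, rfl, h3⟩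
      obtain ⟨h4, rfl⟩ := (h _ _ _).1 h1
      exact ⟨Prod.ext h4 (by simp [h3, mul_assoc]), by simp⟩
    · rintro ⟨h1, rfl⟩
      obtain ⟨h2, h3⟩ := Prod.ext_iff.1 h1
      refine ⟨_, (h _ _ _).2 ⟨h2, rfl⟩, by simp, ?_⟩
      rw [map_mul, map_inv, ← mul_assoc]
      exact (mul_inv_eq_iff_eq_mul.1 h3.symm)
  rel_meas v u v' := by
    have : {ω | ∃ w, FRel s ω v.1 w v'.1 ∧ u = β w ∧ v'.2 = v.2 * θ w} =
        ⋃ w, {ω | FRel s ω v.1 w v'.1} ∩ {_ω | u = β w ∧ v'.2 = v.2 * θ w} := by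
      ext ω; simp
    rw [this]
    exact MeasurableSet.iUnion fun w => (meas_rel _ _ _).inter (MeasurableSet.const _)
  rel_smul g ω v u v' := by
    rintro ⟨w, h1, h2, h3⟩
    exact ⟨w, h1.shift g.1, h2, by simp [h3, mul_assoc]⟩

/-- the lifted neighbour -/
def vx (a : Q) (x : ι × Bool) : G × Q := ((st s x)⁻¹, a * (θ (lw x))⁻¹)

variable {s q θ β} {L : Type} [NormedAddCommGroup L] [InnerProductSpace ℂ L] [CompleteSpace L]
  {σ : F2 →* unitary (L →L[ℂ] L)} {H : Type} [NormedAddCommGroup H] [InnerProductSpace ℂ H]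
  {e : BM (G × ι → Bool) × (G × Q) × L → H}

theorem leak (hμ : ∀ g : G, μ.map (shiftCfg g) = μ)
    (he : ∀ y y', ⟪e y, e y'⟫_ℂ = ∫ ω, (sys s q θ β).kf σ y y' ω ∂μ)
    (c : Finset ι) (b : Bool) {u : F2} (hu : ∀ i ∈ c, β (lw (i, b)) = u)
    {h : BM (G × ι → Bool)} (hh : ‖JJ μ h‖ = 1) {M : ℝ} (hM : ∀ ω, ‖h.1 ω‖ ≤ M) {n : ℕ} {ε : ℝ}
    (hε : 0 ≤ ε)
    (htail : ∀ x x', μ.real {ω | ∃ w, n < w.norm ∧ FRel s ω (st s x)⁻¹ w (st s x')⁻¹} ≤ ε)
    (hθ : ∀ w, w.norm ≤ n + 2 → θ w = 1 → w = 1) {r : ℝ} (hr0 : 0 ≤ r)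
    (hr : Fintype.card ι + (Fintype.card ι : ℝ) ^ 2 * (M ^ 2 * ε) ≤ r ^ 2) (a : Q) (ξ : L) :
    ‖∑ i ∈ c, e (shf (st s (i, b))⁻¹ h, vx s θ a (i, b), ξ) -
      e (∑ i ∈ c, Aop s (i, b) h, (1, a), (σ u⁻¹ : L →L[ℂ] L) ξ)‖ ≤ r * ‖ξ‖ := by
  classical
  haveI := act_inv (μ := μ) Q hμ
  let f : ι → BM (G × ι → Bool) := fun i => shf (st s (i, b))⁻¹ h - Aop s (i, b) h
  have hf : ∀ i ω, (f i).1 ω =
      if ω ∈ Op s (i, b) then 0 else (shf (st s (i, b))⁻¹ h).1 ω := fun i ω => by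
    change (shf (st s (i, b))⁻¹ h).1 ω - (iop s (i, b)).1 ω * (shf (st s (i, b))⁻¹ h).1 ω = _
    rw [iop_apply]
    split_ifs <;> simp
  have hM0 : 0 ≤ M := (norm_nonneg _).trans (hM fun _ => true)
  have hfM : ∀ i ω, ‖(f i).1 ω‖ ≤ M := fun i ω => by
    rw [hf]
    split_ifs
    · simpa using hM0
    · exact hM _
  have e1 : ∑ i ∈ c, e (shf (st s (i, b))⁻¹ h, vx s θ a (i, b), ξ) -
      e (∑ i ∈ c, Aop s (i, b) h, (1, a), (σ u⁻¹ : L →L[ℂ] L) ξ) =
      ∑ i ∈ c, e (f i, vx s θ a (i, b), ξ) := by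
    rw [← eL_apply he, map_sum, ← Finset.sum_sub_distrib]
    refine Finset.sum_congr rfl fun i hi => ?_
    rw [eL_apply, ← e_move he (v := vx s θ a (i, b)), ← eL_apply he, ← eL_apply he, ← map_sub]
    · rfl
    · intro ω h0
      rw [Aop_apply, iop_apply] at h0
      have h1 : ω ∈ Op s (i, b) := by
        by_contra h1
        simp [h1] at h0
      exact ⟨_, Op.rel h1, (hu i hi).symm, by simp [vx]⟩
  rw [e1]
  refine (sq_le_sq₀ (norm_nonneg _) (by positivity)).1 ?_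
  refine (norm_sum_sq_le c _ (a := ‖ξ‖ ^ 2) (b := M ^ 2 * ε * ‖ξ‖ ^ 2) (by positivity)
    (fun i _ => ?_) fun i _ j _ hij => ?_).trans ?_
  · rw [norm_e he]
    refine pow_le_pow_left₀ (by positivity) (mul_le_of_le_one_left (norm_nonneg _) ?_) 2
    rw [← hh, ← norm_JJ_shf hμ (st s (i, b))⁻¹ h]
    refine norm_JJ_mono μ fun ω => ?_
    rw [hf]
    split_ifs <;> simp
  · set U := {ω | ∃ w, n < w.norm ∧ FRel s ω (st s (i, b))⁻¹ w (st s (j, b))⁻¹} with hU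
    have hUm : MeasurableSet U := by
      have : U = ⋃ w : FreeGroup ι, {_ω | n < w.norm} ∩
          {ω | FRel s ω (st s (i, b))⁻¹ w (st s (j, b))⁻¹} := by
        ext ω; simp [hU]
      rw [this]
      exact MeasurableSet.iUnion fun w => (MeasurableSet.const _).inter (meas_rel _ _ _)
    rw [he]
    refine (norm_integral_le_of_norm_le (g := U.indicator fun _ => M ^ 2 * ‖ξ‖ ^ 2)
      ((integrable_const _).indicator hUm) (Filter.Eventually.of_forall fun ω => ?_)).trans ?_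
    · simp only [Sys.kf]
      by_cases hω : ω ∈ U
      · rw [Set.indicator_of_mem hω, norm_mul, norm_mul, RCLike.norm_conj, sq, sq]
        exact mul_le_mul (mul_le_mul (hfM _ _) (hfM _ _) (norm_nonneg _) hM0)
          (Sys.norm_κ_le σ _ _ _ _ _) (norm_nonneg _) (by positivity)
      · rw [Set.indicator_of_notMem hω]
        by_cases h1 : ω ∈ Op s (i, b)
        · simp [hf, h1]
        · rw [Sys.κ_of_not, mul_zero, norm_zero]
          rintro ⟨_, w, h2, -, h3⟩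
          have h4 : w.norm ≤ n := not_lt.1 fun h4 => hω ⟨w, h4, h2⟩
          have h5 : (lw (i, b))⁻¹ * w * lw (j, b) = 1 := by
            refine hθ _ ?_ ?_
            · have a1 := FreeGroup.norm_mul_le ((lw (i, b))⁻¹ * w) (lw (j, b))
              have a2 := FreeGroup.norm_mul_le (lw (i, b))⁻¹ w
              have a3 := norm_lw (i, b)
              have a4 := norm_lw (j, b)
              rw [FreeGroup.norm_inv_eq] at a2
              omega
            · simp only [vx, mul_assoc, mul_right_inj] at h3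
              rw [map_mul, map_mul, map_inv, ← h3, inv_mul_cancel]
          have h6 : w = lw (i, b) * (lw (j, b))⁻¹ := by
            rw [mul_assoc, inv_mul_eq_one] at h5
            rw [h5, mul_inv_cancel_right]
          exact h1 (op_of_rel hij (h6 ▸ h2))
    · rw [integral_indicator_const _ hUm, smul_eq_mul]
      have := mul_le_mul_of_nonneg_right (htail (i, b) (j, b))
        (show 0 ≤ M ^ 2 * ‖ξ‖ ^ 2 by positivity)
      linarith
  · have h1 : (c.card : ℝ) ≤ Fintype.card ι := by exact_mod_cast Finset.card_le_univ c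
    have h2 : (c.card : ℝ) ^ 2 ≤ (Fintype.card ι : ℝ) ^ 2 := by gcongr
    have h3 := mul_le_mul_of_nonneg_right h2 (show 0 ≤ M ^ 2 * ε by positivity)
    have h4 := mul_le_mul_of_nonneg_right (show c.card + (c.card : ℝ) ^ 2 * (M ^ 2 * ε) ≤ r ^ 2 by
      linarith) (sq_nonneg ‖ξ‖)
    rw [mul_pow]
    linarith

end Cfg

end Pool.Agent.P.MP_95bcfc_an.EM
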