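import Pool.Agent.P.MP_95bcfc_an.EM.Path

set_option autoImplicit false
set_option linter.unusedSectionVars false
set_option linter.deprecated false
set_option linter.style.haveILetI false

namespace Pool.Agent.P.MP_95bcfc_an.EM

variable {G ι : Type} [Group G] [DecidableEq ι] (s : ι → G)

/-- connected by edges of `A` -/
def Conn (A : G × ι → Prop) : G → G → Prop :=
  Relation.EqvGen fun g g' => ∃ i, A (g, i) ∧ g' = g * s i

/-- the edges of a walk -/
def edges : G → List (ι × Bool) → List (G × ι)
  | _, [] => []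
  | g, x :: L => edge s g x :: edges (g * st s x) L

variable {s} {A A' : G × ι → Prop}

theorem Conn.refl (g : G) : Conn s A g g := Relation.EqvGen.refl g

theorem Conn.symm {a b : G} (h : Conn s A a b) : Conn s A b a := Relation.EqvGen.symm _ _ h

theorem Conn.trans {a b c : G} (h : Conn s A a b) (h' : Conn s A b c) : Conn s A a c :=
  Relation.EqvGen.trans _ _ _ h h'

theorem Conn.of {g : G} {i : ι} (h : A (g, i)) : Conn s A g (g * s i) :=
  Relation.EqvGen.rel _ _ ⟨i, h, rfl⟩

theorem Conn.mono' (h : ∀ g i, A (g, i) → Conn s A' g (g * s i)) {a b : G} (hc : Conn s A a b) :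
    Conn s A' a b := by
  induction hc with
  | rel _ _ h1 => obtain ⟨i, h2, rfl⟩ := h1; exact h _ _ h2
  | refl => exact Conn.refl _
  | symm _ _ _ ih => exact ih.symm
  | trans _ _ _ _ _ ih ih' => exact ih.trans ih'

theorem Conn.mono (h : ∀ e, A e → A' e) {a b : G} (hc : Conn s A a b) : Conn s A' a b :=
  hc.mono' fun _ _ h1 => Conn.of (h _ h1)

theorem Conn.shift (k : G) (h : ∀ g i, A (g, i) → A (k * g, i)) {a b : G} (hc : Conn s A a b) :
    Conn s A (k * a) (k * b) := by
  induction hc with
  | rel _ _ h1 => obtain ⟨i, h2, rfl⟩ := h1; rw [← mul_assoc]; exact Conn.of (h _ _ h2)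
  | refl => exact Conn.refl _
  | symm _ _ _ ih => exact ih.symm
  | trans _ _ _ _ _ ih ih' => exact ih.trans ih'

theorem conn_edge_iff {g : G} {x : ι × Bool} : Conn s A g (g * st s x) ↔
    Conn s A (edge s g x).1 ((edge s g x).1 * s (edge s g x).2) := by
  obtain ⟨i, b⟩ := x
  cases b
  · simp only [edge, st_false, Bool.false_eq_true, if_false, inv_mul_cancel_right]
    exact ⟨Conn.symm, Conn.symm⟩
  · simp [edge]

theorem edges_append (g : G) (L L' : List (ι × Bool)) : edges s g (L ++ L') =
    edges s g L ++ edges s (g * FreeGroup.lift s (FreeGroup.mk L)) L' := by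
  induction L generalizing g with
  | nil => simp [edges, ← FreeGroup.one_eq_mk]
  | cons x L ih =>
    rw [List.cons_append, edges, edges, ih, mk_cons, map_mul, mul_assoc]
    rfl

theorem conn_edges {g : G} {L : List (ι × Bool)} (h : ∀ e ∈ edges s g L, A e) :
    Conn s A g (g * FreeGroup.lift s (FreeGroup.mk L)) := by
  induction L generalizing g with
  | nil => simpa [← FreeGroup.one_eq_mk] using Conn.refl g
  | cons x L ih =>
    rw [mk_cons, map_mul, ← mul_assoc]
    exact (conn_edge_iff.2 (Conn.of (h _ List.mem_cons_self))).trans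
      (ih fun e he => h e (List.mem_cons_of_mem _ he))

theorem openPath_iff {ω : G × ι → Bool} {g : G} {L : List (ι × Bool)} :
    OpenPath s ω g L ↔ ∀ e ∈ edges s g L, ω e = true := by
  induction L generalizing g with
  | nil => simp [edges]
  | cons x L ih => rw [openPath_cons, ih, edges, List.forall_mem_cons]

theorem edges_near {g : G} {L : List (ι × Bool)} {e : G × ι} (h : e ∈ edges s g L) :
    ∃ u : FreeGroup ι, u.norm ≤ L.length ∧ e.1 = g * FreeGroup.lift s u := by
  induction L generalizing g with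
  | nil => simp [edges] at h
  | cons x L ih =>
    rcases List.mem_cons.1 h with rfl | h
    · obtain ⟨i, b⟩ := x
      cases b
      · exact ⟨lw (i, false), (norm_lw _).trans (by simp), by simp [edge, lw_false]⟩
      · exact ⟨1, by simp, by simp [edge]⟩
    · obtain ⟨u, h1, h2⟩ := ih h
      refine ⟨lw x * u, ?_, by rw [h2, map_mul, mul_assoc]; rfl⟩
      have a1 := FreeGroup.norm_mul_le (lw x) u
      have a2 := norm_lw x
      rw [List.length_cons]
      omega

theorem edges_first {g : G} {L : List (ι × Bool)} {e : G × ι} (h : e ∈ edges s g L) :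
    ∃ L1 y L2, L = L1 ++ y :: L2 ∧ edge s (g * FreeGroup.lift s (FreeGroup.mk L1)) y = e ∧
      e ∉ edges s g L1 := by
  induction L generalizing g with
  | nil => simp [edges] at h
  | cons x L ih =>
    by_cases hx : edge s g x = e
    · exact ⟨[], x, L, rfl, by simpa [← FreeGroup.one_eq_mk] using hx, by simp [edges]⟩
    · obtain ⟨L1, y, L2, rfl, h2, h3⟩ := ih ((List.mem_cons.1 h).resolve_left (Ne.symm hx))
      refine ⟨x :: L1, y, L2, rfl, by rw [mk_cons, map_mul, ← mul_assoc]; exact h2, fun h4 => ?_⟩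
      rcases List.mem_cons.1 h4 with h4 | h4
      · exact hx h4.symm
      · exact h3 h4

theorem edge_eq {g g' : G} {x y : ι × Bool} (h : edge s g' y = edge s g x) :
    g' = g ∨ (y = (x.1, !x.2) ∧ g' = g * st s x) := by
  obtain ⟨i, b⟩ := x
  obtain ⟨j, c⟩ := y
  cases b <;> cases c <;> simp only [edge, Bool.false_eq_true, if_false, if_true, Prod.mk.injEq]
    at h <;> obtain ⟨h1, rfl⟩ := h
  · exact Or.inl (mul_right_cancel h1)
  · exact Or.inr ⟨rfl, by simpa using h1⟩
  · exact Or.inr ⟨rfl, by simp [← h1]⟩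
  · exact Or.inl h1

/-- a closed walk with non-trivial label has an edge on a cycle -/
theorem exists_cycle (n : ℕ) : ∀ (L : List (ι × Bool)) (g : G), L.length ≤ n →
    FreeGroup.lift s (FreeGroup.mk L) = 1 → FreeGroup.mk L ≠ 1 →
    ∃ e ∈ edges s g L, Conn s (fun e' => e' ∈ edges s g L ∧ e' ≠ e) e.1 (e.1 * s e.2) := by
  induction n with
  | zero =>
    intro L g hL _ h
    rw [List.length_eq_zero_iff.1 (Nat.le_zero.1 hL)] at h
    exact absurd FreeGroup.one_eq_mk.symm h
  | succ n ih =>
    intro L g hL h1 h2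
    cases L with
    | nil => exact absurd FreeGroup.one_eq_mk.symm h2
    | cons x L =>
      rw [mk_cons] at h1 h2
      rw [map_mul] at h1
      by_cases hx : edge s g x ∈ edges s (g * st s x) L
      · obtain ⟨L1, y, L2, rfl, h3, h4⟩ := edges_first hx
        rcases edge_eq h3 with h5 | ⟨rfl, h5⟩
        · refine ⟨_, List.mem_cons_self, conn_edge_iff.1 (Conn.symm ?_)⟩
          have h6 := conn_edges (s := s) (g := g * st s x) (L := L1)
            (A := fun e' => e' ∈ edges s g (x :: (L1 ++ y :: L2)) ∧ e' ≠ edge s g x) fun e he =>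
              ⟨by rw [edges, edges_append]; simp [he], fun h7 => h4 (h7 ▸ he)⟩
          rwa [h5] at h6
        · have h6 : FreeGroup.lift s (FreeGroup.mk L1) = 1 := by simpa using h5
          have hl : L1.length ≤ n ∧ L2.length ≤ n := by
            simp only [List.length_cons, List.length_append] at hL
            omega
          rw [← FreeGroup.mul_mk, mk_cons, lw_not] at h1 h2
          rw [map_mul, map_mul, h6, map_inv, one_mul, mul_inv_cancel_left] at h1
          by_cases h7 : FreeGroup.mk L1 = 1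
          · rw [h7, one_mul, mul_inv_cancel_left] at h2
            obtain ⟨e, he, hc⟩ := ih L2 g hl.2 h1 h2
            have h8 : ∀ e' ∈ edges s g L2, e' ∈ edges s g (x :: (L1 ++ (x.1, !x.2) :: L2)) := by
              intro e' he'
              rw [edges, edges_append, edges, h5, st_not, mul_inv_cancel_right]
              simp [he']
            exact ⟨e, h8 e he, hc.mono fun e' he' => ⟨h8 e' he'.1, he'.2⟩⟩
          · obtain ⟨e, he, hc⟩ := ih L1 (g * st s x) hl.1 h6 h7
            have h8 : ∀ e' ∈ edges s (g * st s x) L1,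
                e' ∈ edges s g (x :: (L1 ++ (x.1, !x.2) :: L2)) := by
              intro e' he'
              rw [edges, edges_append]
              simp [he']
            exact ⟨e, h8 e he, hc.mono fun e' he' => ⟨h8 e' he'.1, he'.2⟩⟩
      · refine ⟨_, List.mem_cons_self, conn_edge_iff.1 (Conn.symm ?_)⟩
        have h6 := conn_edges (s := s) (g := g * st s x) (L := L)
          (A := fun e' => e' ∈ edges s g (x :: L) ∧ e' ≠ edge s g x) fun e he =>
            ⟨List.mem_cons_of_mem _ he, fun h7 => hx (h7 ▸ he)⟩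
        rwa [mul_assoc, show st s x * FreeGroup.lift s (FreeGroup.mk L) = 1 from h1, mul_one] at h6

variable [Fintype ι] (K : Subgroup G) [K.Normal] [K.FiniteIndex]

/-- a periodic set of edges that connects and has no short cycle -/
theorem exists_periodic (R : ℕ)
    (hK : ∀ w : FreeGroup ι, w.norm ≤ 2 * R → FreeGroup.lift s w ∈ K → FreeGroup.lift s w = 1) :
    ∃ F : Finset ((G ⧸ K) × ι), (∀ g i, Conn s (fun e => ((e.1 : G ⧸ K), e.2) ∈ F) g (g * s i)) ∧
      ∀ (g : G) (w : FreeGroup ι), w.norm ≤ R →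
        (∀ e ∈ edges s g w.toWord, ((e.1 : G ⧸ K), e.2) ∈ F) → FreeGroup.lift s w = 1 → w = 1 := by
  classical
  letI := K.fintypeQuotientOfFiniteIndex
  let P : Finset ((G ⧸ K) × ι) → Prop := fun F =>
    ∀ g i, Conn s (fun e => ((e.1 : G ⧸ K), e.2) ∈ F) g (g * s i)
  obtain ⟨F, hF, hmin⟩ := Finset.exists_min_image (Finset.univ.filter P) Finset.card
    ⟨Finset.univ, Finset.mem_filter.2 ⟨Finset.mem_univ _, fun g i => Conn.of (Finset.mem_univ _)⟩⟩
  have hP : P F := (Finset.mem_filter.1 hF).2
  refine ⟨F, hP, fun g w hw h1 h2 => ?_⟩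
  by_contra h3
  obtain ⟨e, he, hc⟩ := exists_cycle (s := s) _ w.toWord g le_rfl
    (by rwa [FreeGroup.mk_toWord]) (by rwa [FreeGroup.mk_toWord])
  have h4 : Conn s (fun e' => ((e'.1 : G ⧸ K), e'.2) ∈ F.erase ((e.1 : G ⧸ K), e.2)) e.1
      (e.1 * s e.2) := by
    refine hc.mono fun e' he' => Finset.mem_erase.2 ⟨fun h5 => he'.2 ?_, h1 e' he'.1⟩
    obtain ⟨h6, h7⟩ := Prod.ext_iff.1 h5
    obtain ⟨u, hu, hu'⟩ := edges_near he
    obtain ⟨u', hv, hv'⟩ := edges_near he'.1
    have h8 : e'.1⁻¹ * e.1 = FreeGroup.lift s (u'⁻¹ * u) := by simp [hu', hv', mul_assoc]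
    have h9 := hK (u'⁻¹ * u) (by
      have a1 := FreeGroup.norm_mul_le u'⁻¹ u
      rw [FreeGroup.norm_inv_eq] at a1
      change w.toWord.length ≤ R at hw
      omega) (h8 ▸ QuotientGroup.eq.1 h6)
    exact Prod.ext (inv_mul_eq_one.1 (h8.trans h9)) h7
  have h5 : P (F.erase ((e.1 : G ⧸ K), e.2)) := fun g i => (hP g i).mono' fun g i hgi => by
    by_cases h6 : ((g : G ⧸ K), i) = ((e.1 : G ⧸ K), e.2)
    · obtain ⟨h7, rfl⟩ := Prod.ext_iff.1 h6
      have h8 := h4.shift (g * e.1⁻¹) fun g' i' h9 => by
        have : ((g * e.1⁻¹ * g' : G) : G ⧸ K) = g' := by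
          simp only [QuotientGroup.mk_mul, QuotientGroup.mk_inv]
          rw [show (g : G ⧸ K) = e.1 from h7, mul_inv_cancel, one_mul]
        simpa only [this] using h9
      simpa only [← mul_assoc, inv_mul_cancel_right] using h8
    · exact Conn.of (Finset.mem_erase.2 ⟨h6, hgi⟩)
  have h6 := hmin _ (Finset.mem_filter.2 ⟨Finset.mem_univ _, h5⟩)
  exact absurd h6 (not_le.2 (Finset.card_erase_lt_of_mem (h1 e he)))

/-- a connecting periodic set of edges is large -/
theorem card_periodic (I : Subgroup G) [I.FiniteIndex] (hKI : K ≤ I)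
    (hs : Subgroup.closure (Set.range s) = I) {m : ℝ}
    (hm : ∀ T : Finset G, Subgroup.closure (T : Set G) = K → m ≤ T.card)
    (F : Finset ((G ⧸ K) × ι))
    (hF : ∀ g i, Conn s (fun e => ((e.1 : G ⧸ K), e.2) ∈ F) g (g * s i)) :
    I.index * m ≤ F.card := by
  classical
  letI := I.fintypeQuotientOfFiniteIndex
  have h1 : ∀ u ∈ I, ∀ g, Conn s (fun e => ((e.1 : G ⧸ K), e.2) ∈ F) g (g * u) := by
    intro u hu
    rw [← hs] at hu
    induction hu using Subgroup.closure_induction with
    | mem x hx => obtain ⟨i, rfl⟩ := hx; exact fun g => hF g i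
    | one => exact fun g => by simpa using Conn.refl g
    | mul x y _ _ hx hy => exact fun g => by rw [← mul_assoc]; exact (hx g).trans (hy _)
    | inv x _ hx => exact fun g => by simpa using (hx (g * x⁻¹)).symm
  let c : G → G := fun g => g * ((g : G ⧸ K).out)⁻¹
  have hc : ∀ g, c g ∈ K := fun g =>
    Subgroup.Normal.mem_comm inferInstance (QuotientGroup.eq.1 (QuotientGroup.out_eq' _))
  have key : ∀ r : G ⧸ I,
      m ≤ (F.filter fun p => Subgroup.quotientMapOfLE hKI p.1 = r).card := by
    intro r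
    set Fr := F.filter fun p => Subgroup.quotientMapOfLE hKI p.1 = r with hFr
    let T : Finset G := Fr.image fun p => (c p.1.out)⁻¹ * c (p.1.out * s p.2)
    refine (hm T (le_antisymm ?_ fun h hh => ?_)).trans (by exact_mod_cast Finset.card_image_le)
    · rw [Subgroup.closure_le]
      intro x hx
      obtain ⟨p, -, rfl⟩ := Finset.mem_image.1 (Finset.mem_coe.1 hx)
      exact K.mul_mem (K.inv_mem (hc _)) (hc _)
    · have h2 : ∀ a b, Conn s (fun e => ((e.1 : G ⧸ K), e.2) ∈ F) a b → a⁻¹ * b ∈ I ∧
          ((a : G ⧸ I) = r → (c a)⁻¹ * c b ∈ Subgroup.closure (T : Set G)) := by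
        intro a b hab
        induction hab with
        | rel a _ h3 =>
          obtain ⟨i, h4, rfl⟩ := h3
          refine ⟨by simpa [← hs] using Subgroup.subset_closure (Set.mem_range_self i),
            fun h5 => Subgroup.subset_closure (Finset.mem_coe.2 (Finset.mem_image.2
              ⟨((a : G ⧸ K), i), Finset.mem_filter.2 ⟨h4, h5⟩, ?_⟩))⟩
          simp [c, mul_assoc]
        | refl => simp
        | symm a b _ ih =>
          refine ⟨by simpa using I.inv_mem ih.1, fun h5 => ?_⟩
          simpa using Subgroup.inv_mem _ (ih.2 ((QuotientGroup.eq.2 ih.1).trans h5))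
        | trans a b d _ _ ih ih' =>
          refine ⟨by simpa [mul_assoc] using I.mul_mem ih.1 ih'.1, fun h5 => ?_⟩
          simpa [mul_assoc] using Subgroup.mul_mem _ (ih.2 h5)
            (ih'.2 ((QuotientGroup.eq.2 ih.1).symm.trans h5))
      set g := r.out with hg
      have h3 : c g * h * (c g)⁻¹ ∈ K := K.mul_mem (K.mul_mem (hc g) hh) (K.inv_mem (hc g))
      set k := c g * h * (c g)⁻¹ with hk
      have h4 : g⁻¹ * k * g ∈ K := by
        simpa using Subgroup.Normal.conj_mem inferInstance k h3 g⁻¹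
      have h5 := (h2 _ _ (h1 _ (hKI h4) g)).2 (QuotientGroup.out_eq' r)
      have h6 : ((g * (g⁻¹ * k * g) : G) : G ⧸ K) = g :=
        (QuotientGroup.eq.2 (by simpa [mul_assoc] using h4)).symm
      have h7 : c (g * (g⁻¹ * k * g)) = k * c g := by
        simp only [c, h6]
        simp [mul_assoc]
      rw [h7, hk] at h5
      simpa [mul_assoc] using h5
  rw [Finset.card_eq_sum_card_fiberwise (f := fun p => Subgroup.quotientMapOfLE hKI p.1)
    (t := Finset.univ) fun _ _ => Finset.mem_univ _, Nat.cast_sum, Subgroup.index_eq_card,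
    Nat.card_eq_fintype_card, ← nsmul_eq_mul, ← Finset.card_univ]
  exact Finset.card_nsmul_le_sum _ _ _ fun r _ => key r

end Pool.Agent.P.MP_95bcfc_an.EM
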