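import Pool.Agent.P.MP_95bcfc_an.Stmt

set_option autoImplicit false

open MeasureTheory

namespace Pool.Agent.P.MP_95bcfc_an

/-- A configuration `ω : G × ι → Bool` chooses edges of the Cayley graph of `s : ι → G`; the pair
`(g, i)` is the edge from `g` to `g * s i`.  `OpenPath s ω g L`: the walk that starts at `g` and
reads the word `L` uses chosen edges only. -/
def OpenPath {G ι : Type} [Group G] (s : ι → G) (ω : G × ι → Bool) : G → List (ι × Bool) → Prop
  | _, [] => True
  | g, (i, true) :: L => ω (g, i) = true ∧ OpenPath s ω (g * s i) L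
  | g, (i, false) :: L => ω (g * (s i)⁻¹, i) = true ∧ OpenPath s ω (g * (s i)⁻¹) L

/-- The chosen edges form a forest: no non-trivial reduced word labels a closed walk of chosen
edges. -/
def IsForest {G ι : Type} [Group G] [DecidableEq ι] (s : ι → G) (ω : G × ι → Bool) : Prop :=
  ∀ (g : G) (w : FreeGroup ι), OpenPath s ω g w.toWord → FreeGroup.lift s w = 1 → w = 1

/-- Left translation of a configuration. -/
def shiftCfg {G ι : Type} [Group G] (g : G) (ω : G × ι → Bool) : G × ι → Bool :=
  fun e => ω (g⁻¹ * e.1, e.2)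

/-- The Epstein-Monod condition: invariant random forests whose squared expected degree, divided by
the number of edge types, is unbounded. -/
def WideForests (G : Type) [Group G] : Prop :=
  ∀ C : ℝ, ∃ (n : ℕ) (s : Fin n → G) (μ : Measure (G × Fin n → Bool)), IsProbabilityMeasure μ ∧
    (∀ g : G, μ.map (shiftCfg g) = μ) ∧ (∀ᵐ ω ∂μ, IsForest s ω) ∧
    C * n < (∑ i, μ.real {ω | ω (1, i) = true}) ^ 2

/-- Positive rank gradient along a chain of finite index normal subgroups with trivial
intersection. -/
def PosRankGradient (G : Type) [Group G] : Prop :=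
  Group.FG G ∧ ∃ (H : ℕ → Subgroup G) (c : ℝ), 0 < c ∧ Antitone H ∧
    (∀ j, (H j).Normal ∧ (H j).FiniteIndex) ∧ ⨅ j, H j = ⊥ ∧
    ∀ (j : ℕ) (T : Finset G), Subgroup.closure (T : Set G) = H j → c * (H j).index ≤ T.card

end Pool.Agent.P.MP_95bcfc_an
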